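import Mathlib
import Pool.Agent.EternalGrid.DPData

namespace Pool.Agent.EternalGrid

/-- Repeat the pattern `m` of length `p`, `3 ^ k` times. -/
def rep (m p : Nat) : Nat → Nat
  | 0 => m
  | k + 1 => (rep m p k) ||| ((rep m p k) <<< (p * 3 ^ k)) |||
      ((rep m p k) <<< (2 * (p * 3 ^ k)))

/-- The set of indices below `3 ^ 10` whose `i`-th base-3 digit is `d`. -/
def msk (i d : Nat) : Nat :=
  rep ((2 ^ (3 ^ i) - 1) <<< (d * 3 ^ i)) (3 ^ (i + 1)) (9 - i)

/-- Select by the mask `m`, then shift down by `dn` and up by `up`. -/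
def tr (m B dn up : Nat) : Nat := ((B &&& m) >>> dn) <<< up

/-- A rule at the first cell: old digit, new digit, cost. -/
structure Rule0 where
  s : Nat
  s' : Nat
  c : Nat

/-- A rule at a later cell: old digits at the previous and the current cell, new digits, cost. -/
structure Rule where
  p : Nat
  s : Nat
  p' : Nat
  s' : Nat
  c : Nat

/-- cost of putting a guard on the current cell, previous (pending) digit `p`, old digit `s` -/
def gcost (p s : Nat) : Nat :=
  (if s = 2 then 0 else 1) + (if s = 0 then 1 else 0) + (if p = 0 then 1 else 0) +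
    (if p = 2 then 0 else 1)

/-- cost of not putting a guard on the current cell -/
def ncost (p s : Nat) : Nat :=
  ((if s = 0 then 1 else 0) + (if p = 0 then 1 else 0)) - 1

/-- new pending digit when there is no guard on the current cell -/
def npend (p s : Nat) : Nat := if s = 0 ∨ p = 0 then 1 else 2

/-- new digit of the previous cell when a guard is put on the current cell -/
def gprev (p : Nat) : Nat := if p = 2 then 1 else p

def rules0 : List Rule0 :=
  [⟨0, 0, 3⟩, ⟨1, 0, 2⟩, ⟨2, 0, 1⟩, ⟨0, 1, 0⟩, ⟨1, 2, 0⟩]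

def grules : List Rule :=
  [0, 1, 2].flatMap fun p => [0, 1, 2].map fun s => ⟨p, s, gprev p, 0, gcost p s⟩

def nrules : List Rule :=
  [0, 1, 2].flatMap fun p => [0, 1].map fun s => ⟨p, s, p, npend p s, ncost p s⟩

def lrules : List Rule :=
  [0, 1, 2].map fun p => ⟨p, 2, p, npend p 2, ncost p 2⟩

/-- first stage -/
def stage0 (M : List Nat) : List Nat :=
  (List.range 9).map fun t =>
    rules0.foldl (fun acc r => acc |||
      (if r.c ≤ t then tr (msk 0 r.s) (M.getD (t - r.c) 0) r.s r.s' else 0)) 0

/-- stage at cell `i + 1` -/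
def stage (i : Nat) (R : List Rule) (M : List Nat) : List Nat :=
  (List.range 9).map fun t =>
    R.foldl (fun acc r => acc |||
      (if r.c ≤ t then tr (msk i r.p &&& msk (i + 1) r.s) (M.getD (t - r.c) 0)
        (r.p * 3 ^ i + r.s * 3 ^ (i + 1)) (r.p' * 3 ^ i + r.s' * 3 ^ (i + 1)) else 0)) 0

def levels : List Nat :=
  [lev0, lev1, lev2, lev3, lev4, lev5, lev6, lev7, 2 ^ 3 ^ 10 - 1]

def run : Nat → List Nat
  | 0 => stage0 levels
  | i + 1 => stage i (if i = 8 then grules ++ nrules ++ lrules else grules ++ nrules) (run i)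

def checkFinal (M : List Nat) : Bool :=
  (M.getD 0 0 == 0) &&
    (List.range 8).all fun t => (M.getD (t + 1) 0 ||| levels.getD t 0) == levels.getD t 0

theorem check_ok : checkFinal (run 9) = true := by decide +kernel

end Pool.Agent.EternalGrid
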