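import Mathlib
import Pool.Agent.EternalGrid.DPCheck

namespace Pool.Agent.EternalGrid

/-! ### masks -/

lemma testBit_rep (m p : Nat) (hp : 0 < p) :
    ∀ (k x : Nat), x < p * 3 ^ k → m.testBit (x % p) = true → (rep m p k).testBit x = true := by
  intro k
  induction k with
  | zero =>
    intro x hx h
    rw [Nat.pow_zero, Nat.mul_one] at hx
    rw [Nat.mod_eq_of_lt hx] at h
    exact h
  | succ k ih =>
    intro x hx h
    have hP : p * 3 ^ (k + 1) = 3 * (p * 3 ^ k) := by ring
    rw [hP] at hx
    set P := p * 3 ^ k with hPdef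
    unfold rep
    rw [Nat.testBit_or, Nat.testBit_or, Nat.testBit_shiftLeft, Nat.testBit_shiftLeft]
    have hmod : ∀ j, j * P ≤ x → (x - j * P) % p = x % p := by
      intro j hj
      have : j * P = p * (j * 3 ^ k) := by rw [hPdef]; ring
      have h2 : x = (x - j * P) + p * (j * 3 ^ k) := by rw [← this]; omega
      conv_rhs => rw [h2]
      rw [Nat.add_mul_mod_self_left]
    by_cases h1 : x < P
    · rw [ih x h1 h]; simp
    · by_cases h2 : x < 2 * P
      · have h3 := hmod 1 (by omega)
        rw [Nat.one_mul] at h3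
        have := ih (x - P) (by omega) (by rw [h3]; exact h)
        rw [← hPdef]
        simp only [this, Bool.and_true, Bool.or_eq_true, decide_eq_true_eq]
        left; right; omega
      · have h3 := hmod 2 (by omega)
        have := ih (x - 2 * P) (by omega) (by rw [h3]; exact h)
        rw [← hPdef]
        simp only [this, Bool.and_true, Bool.or_eq_true, decide_eq_true_eq]
        right; omega

lemma testBit_msk (i d x : Nat) (hi : i ≤ 9) (hx : x < 3 ^ 10) (hd : x / 3 ^ i % 3 = d) :
    (msk i d).testBit x = true := by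
  unfold msk
  have h10 : 3 ^ (i + 1) * 3 ^ (9 - i) = 3 ^ 10 := by
    rw [← Nat.pow_add]; congr 1; omega
  apply testBit_rep _ _ (by positivity) _ _ (by rw [h10]; exact hx)
  have h1 : (x % 3 ^ (i + 1)) / 3 ^ i = d := by
    rw [Nat.pow_succ, Nat.mod_mul_right_div_self, hd]
  have hpos : 0 < 3 ^ i := by positivity
  set y := x % 3 ^ (i + 1) with hy
  have h2 : d * 3 ^ i ≤ y := by
    rw [← h1]; exact Nat.div_mul_le_self y (3 ^ i)
  have h3 : y < (d + 1) * 3 ^ i := by
    rw [← h1]
    have := Nat.lt_div_mul_add (a := y) (b := 3 ^ i) hpos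
    nlinarith
  rw [Nat.testBit_shiftLeft, Nat.testBit_two_pow_sub_one]
  simp only [Bool.and_eq_true, decide_eq_true_eq]
  refine ⟨h2, ?_⟩
  have : (d + 1) * 3 ^ i = d * 3 ^ i + 3 ^ i := by ring
  omega

lemma testBit_tr (m B dn up x : Nat) (hm : m.testBit x = true) (hB : B.testBit x = true)
    (hdn : dn ≤ x) : (tr m B dn up).testBit (x - dn + up) = true := by
  unfold tr
  rw [Nat.testBit_shiftLeft, Nat.testBit_shiftRight, Nat.testBit_and]
  have h1 : dn + (x - dn + up - up) = x := by omega
  rw [h1, hB, hm]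
  simp

lemma foldl_or {α : Type*} (f : α → Nat) (x : Nat) :
    ∀ (R : List α) (a : Nat), (a.testBit x = true ∨ ∃ r ∈ R, (f r).testBit x = true) →
      (R.foldl (fun acc r => acc ||| f r) a).testBit x = true := by
  intro R
  induction R with
  | nil =>
    intro a h
    simpa using h
  | cons r R ih =>
    intro a h
    rw [List.foldl_cons]
    apply ih
    rw [Nat.testBit_or]
    rcases h with h | ⟨r', hr', h⟩
    · left; simp [h]
    · rcases List.mem_cons.mp hr' with rfl | hr'
      · left; simp [h]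
      · right; exact ⟨r', hr', h⟩

lemma getD_map_range (f : Nat → Nat) (n t : Nat) (ht : t < n) :
    ((List.range n).map f).getD t 0 = f t := by
  rw [List.getD_eq_getElem?_getD, List.getElem?_map, List.getElem?_range ht]
  rfl

lemma stage0_sound (M : List Nat) (r : Rule0) (hr : r ∈ rules0) (t x : Nat) (ht : t ≤ 8)
    (hc : r.c ≤ t) (hM : (M.getD (t - r.c) 0).testBit x = true) (hx : x < 3 ^ 10)
    (hs : x % 3 = r.s) :
    ((stage0 M).getD t 0).testBit (x - r.s + r.s') = true := by
  unfold stage0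
  rw [getD_map_range _ _ _ (by omega)]
  apply foldl_or
  right
  refine ⟨r, hr, ?_⟩
  rw [if_pos hc]
  apply testBit_tr _ _ _ _ _ _ hM
  · rw [← hs]; exact Nat.mod_le _ _
  · apply testBit_msk _ _ _ (by omega) hx
    simpa using hs

lemma stage_sound (i : Nat) (hi : i ≤ 8) (R : List Rule) (M : List Nat) (r : Rule) (hr : r ∈ R)
    (t x : Nat) (ht : t ≤ 8)
    (hc : r.c ≤ t) (hM : (M.getD (t - r.c) 0).testBit x = true) (hx : x < 3 ^ 10)
    (hp : x / 3 ^ i % 3 = r.p) (hs : x / 3 ^ (i + 1) % 3 = r.s)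
    (hle : r.p * 3 ^ i + r.s * 3 ^ (i + 1) ≤ x) :
    ((stage i R M).getD t 0).testBit
      (x - (r.p * 3 ^ i + r.s * 3 ^ (i + 1)) + (r.p' * 3 ^ i + r.s' * 3 ^ (i + 1))) = true := by
  unfold stage
  rw [getD_map_range _ _ _ (by omega)]
  apply foldl_or
  right
  refine ⟨r, hr, ?_⟩
  rw [if_pos hc]
  apply testBit_tr _ _ _ _ _ _ hM hle
  rw [Nat.testBit_and, testBit_msk i _ _ (by omega) hx hp,
    testBit_msk (i + 1) _ _ (by omega) hx hs]
  rfl

/-! ### words and their indices -/

/-- The index of the word `w 0, …, w (k-1)`. -/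
def wi (w : Nat → Nat) : Nat → Nat
  | 0 => 0
  | k + 1 => wi w k + w k * 3 ^ k

lemma wi_lt (w : Nat → Nat) (hw : ∀ j, w j < 3) : ∀ k, wi w k < 3 ^ k := by
  intro k
  induction k with
  | zero => simp [wi]
  | succ k ih =>
    unfold wi
    have h1 := hw k
    have h2 : w k * 3 ^ k ≤ 2 * 3 ^ k := Nat.mul_le_mul_right _ (by omega)
    have h3 : 3 ^ (k + 1) = 3 * 3 ^ k := by ring
    omega

lemma wi_congr (w w' : Nat → Nat) : ∀ k, (∀ j < k, w j = w' j) → wi w k = wi w' k := by
  intro k
  induction k with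
  | zero => intro _; rfl
  | succ k ih =>
    intro h
    unfold wi
    rw [ih (fun j hj => h j (by omega)), h k (by omega)]

lemma wi_digit (w : Nat → Nat) (hw : ∀ j, w j < 3) (i : Nat) :
    ∀ k, i < k → wi w k / 3 ^ i % 3 = w i := by
  intro k
  induction k with
  | zero => intro h; omega
  | succ k ih =>
    intro h
    unfold wi
    rcases Nat.lt_or_ge i k with h1 | h1
    · obtain ⟨e, rfl⟩ : ∃ e, k = i + 1 + e := ⟨k - (i + 1), by omega⟩
      have h2 : w (i + 1 + e) * 3 ^ (i + 1 + e) = 3 ^ i * (3 * (w (i + 1 + e) * 3 ^ e)) := by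
        ring
      rw [h2, Nat.add_mul_div_left _ _ (by positivity), Nat.add_mul_mod_self_left]
      exact ih h1
    · have : i = k := by omega
      subst this
      have h2 := wi_lt w hw i
      rw [Nat.add_mul_div_right _ _ (by positivity), Nat.div_eq_of_lt h2, Nat.zero_add,
        Nat.mod_eq_of_lt (hw i)]

lemma wi_update1 (w w' : Nat → Nat) (i : Nat) (h : ∀ j, j ≠ i → w j = w' j) :
    ∀ k, i < k → wi w' k + w i * 3 ^ i = wi w k + w' i * 3 ^ i ∧ w i * 3 ^ i ≤ wi w k := by
  intro k
  induction k with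
  | zero => intro h; omega
  | succ k ih =>
    intro hk
    unfold wi
    rcases Nat.lt_or_ge i k with h1 | h1
    · obtain ⟨h2, h3⟩ := ih h1
      rw [h k (by omega)]
      constructor
      · omega
      · omega
    · have : i = k := by omega
      subst this
      rw [wi_congr w w' i (fun j hj => h j (by omega))]
      constructor <;> omega

lemma wi_update2 (w w' : Nat → Nat) (i : Nat) (h : ∀ j, j ≠ i → j ≠ i + 1 → w j = w' j) (k : Nat)
    (hk : i + 1 < k) :
    wi w' k + (w i * 3 ^ i + w (i + 1) * 3 ^ (i + 1)) =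
      wi w k + (w' i * 3 ^ i + w' (i + 1) * 3 ^ (i + 1)) ∧
    w i * 3 ^ i + w (i + 1) * 3 ^ (i + 1) ≤ wi w k := by
  -- intermediate word
  let v : Nat → Nat := fun j => if j = i then w' i else w j
  have hv1 : ∀ j, j ≠ i → w j = v j := fun j hj => by simp [v, hj]
  have hv2 : ∀ j, j ≠ i + 1 → v j = w' j := by
    intro j hj
    by_cases hji : j = i
    · subst hji; simp [v]
    · simp [v, hji, h j hji hj]
  have h1 := wi_update1 w v i hv1 k (by omega)
  have h2 := wi_update1 v w' (i + 1) hv2 k hk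
  have e1 : v i = w' i := by simp [v]
  have e2 : v (i + 1) = w (i + 1) := by simp [v]
  rw [e1] at h1
  rw [e2] at h2
  obtain ⟨h1a, h1b⟩ := h1
  obtain ⟨h2a, h2b⟩ := h2
  constructor
  · omega
  · -- peel the digit `i` off
    let z : Nat → Nat := fun j => if j = i then 0 else w j
    have hz1 : ∀ j, j ≠ i → w j = z j := fun j hj => by simp [z, hj]
    have h3 := wi_update1 w z i hz1 k (by omega)
    have h4 := wi_update1 z z (i + 1) (fun _ _ => rfl) k hk
    have e3 : z i = 0 := by simp [z]
    have e4 : z (i + 1) = w (i + 1) := by simp [z]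
    rw [e3] at h3
    rw [e4] at h4
    omega

end Pool.Agent.EternalGrid
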