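import Mathlib
import Pool.Agent.EternalGrid.DPSound

namespace Pool.Agent.EternalGrid

/-- pending digit of cell `i` of the new column, before the guard on cell `i+1` is known -/
def pend (s : Nat → Nat) (g : Nat → Bool) : Nat → Nat
  | 0 => if g 0 then 0 else npend 1 (s 0)
  | i + 1 => if g (i + 1) then 0 else npend (if g i then 0 else 1) (s (i + 1))

/-- final digit of cell `i` of the new column -/
def newd (s : Nat → Nat) (g : Nat → Bool) (i : Nat) : Nat :=
  if g (i + 1) then gprev (pend s g i) else pend s g i

/-- word after processing the cells `0, …, k-1` -/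
def mix (s : Nat → Nat) (g : Nat → Bool) (k j : Nat) : Nat :=
  if j + 1 < k then newd s g j else if j + 1 = k then pend s g j else s j

/-- cost of the guard on the first cell -/
def gcost0 (s : Nat) : Nat :=
  (if s = 2 then 0 else 1) + (if s = 0 then 1 else 0) + 1

/-- cost of processing cell `i` -/
def cst (s : Nat → Nat) (g : Nat → Bool) : Nat → Nat
  | 0 => if g 0 then gcost0 (s 0) else 0
  | i + 1 => if g (i + 1) then gcost (pend s g i) (s (i + 1)) else ncost (pend s g i) (s (i + 1))

lemma pend_zero (s : Nat → Nat) (g : Nat → Bool) :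
    pend s g 0 = if g 0 then 0 else npend 1 (s 0) := rfl

lemma pend_succ (s : Nat → Nat) (g : Nat → Bool) (i : Nat) :
    pend s g (i + 1) = if g (i + 1) then 0 else npend (if g i then 0 else 1) (s (i + 1)) := rfl

lemma cst_zero (s : Nat → Nat) (g : Nat → Bool) :
    cst s g 0 = if g 0 then gcost0 (s 0) else 0 := rfl

lemma cst_succ (s : Nat → Nat) (g : Nat → Bool) (i : Nat) :
    cst s g (i + 1) =
      if g (i + 1) then gcost (pend s g i) (s (i + 1)) else ncost (pend s g i) (s (i + 1)) := rfl

lemma pend_lt (s : Nat → Nat) (g : Nat → Bool) (i : Nat) : pend s g i < 3 := by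
  cases i with
  | zero => rw [pend_zero]; unfold npend; split_ifs <;> omega
  | succ i => rw [pend_succ]; unfold npend; split_ifs <;> omega

lemma pend_eq_zero (s : Nat → Nat) (g : Nat → Bool) (i : Nat) : pend s g i = 0 ↔ g i = true := by
  cases i with
  | zero => rw [pend_zero]; unfold npend; split_ifs <;> simp_all
  | succ i =>
    rw [pend_succ]
    by_cases h : g (i + 1) = true
    · simp [h]
    · rw [if_neg h]
      constructor
      · intro h2
        unfold npend at h2
        split_ifs at h2
      · intro h2; exact absurd h2 h

lemma newd_lt (s : Nat → Nat) (g : Nat → Bool) (i : Nat) : newd s g i < 3 := by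
  have := pend_lt s g i
  unfold newd gprev
  split_ifs <;> omega

lemma mix_lt (s : Nat → Nat) (g : Nat → Bool) (hs : ∀ j, s j < 3) (k j : Nat) :
    mix s g k j < 3 := by
  have h1 := pend_lt s g j
  have h2 := newd_lt s g j
  have h3 := hs j
  unfold mix
  split_ifs <;> assumption

lemma chain (s : Nat → Nat) (g : Nat → Bool) (hs : ∀ j, s j < 3)
    (hcon : ∀ i < 9, g i = false → s i ≠ 2) (u : Nat)
    (hpot : (levels.getD u 0).testBit (wi s 10) = true) :
    ∀ i, i ≤ 9 → u + ∑ j ∈ Finset.range (i + 1), cst s g j ≤ 8 →
      ((run i).getD (u + ∑ j ∈ Finset.range (i + 1), cst s g j) 0).testBit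
        (wi (mix s g (i + 1)) 10) = true := by
  intro i
  induction i with
  | zero =>
    intro _ hle
    rw [Finset.sum_range_one] at hle ⊢
    have hx := wi_lt s hs 10
    have hd := wi_digit s hs 0 10 (by omega)
    rw [Nat.pow_zero, Nat.div_one] at hd
    have hup := wi_update1 s (mix s g 1) 0 (fun j hj => by
      unfold mix
      rw [if_neg (by omega), if_neg (by omega)]) 10 (by omega)
    have e1 : mix s g 1 0 = pend s g 0 := by simp [mix]
    rw [e1, Nat.pow_zero, Nat.mul_one, Nat.mul_one] at hup
    have key : ∀ r : Rule0, r ∈ rules0 → r.s = s 0 → r.s' = pend s g 0 → r.c = cst s g 0 →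
        ((run 0).getD (u + cst s g 0) 0).testBit (wi (mix s g 1) 10) = true := by
      intro r hr h1 h2 h3
      have := stage0_sound levels r hr (u + cst s g 0) (wi s 10) hle (by omega)
        (by rw [h3, Nat.add_sub_cancel]; exact hpot) hx (by rw [hd, h1])
      have h4 : wi s 10 - r.s + r.s' = wi (mix s g 1) 10 := by rw [h1, h2]; omega
      rw [h4] at this
      exact this
    have h3 := hs 0
    have h4 := hcon 0 (by omega)
    by_cases hg : g 0 = true
    · have h5 : s 0 = 0 ∨ s 0 = 1 ∨ s 0 = 2 := by omega
      rcases h5 with h5 | h5 | h5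
      · exact key ⟨0, 0, 3⟩ (by simp [rules0]) (by simp [h5]) (by simp [pend, hg])
          (by simp [cst, hg, h5, gcost0])
      · exact key ⟨1, 0, 2⟩ (by simp [rules0]) (by simp [h5]) (by simp [pend, hg])
          (by simp [cst, hg, h5, gcost0])
      · exact key ⟨2, 0, 1⟩ (by simp [rules0]) (by simp [h5]) (by simp [pend, hg])
          (by simp [cst, hg, h5, gcost0])
    · have hg' : g 0 = false := by simpa using hg
      have h5 : s 0 = 0 ∨ s 0 = 1 := by
        have := h4 hg'
        omega
      rcases h5 with h5 | h5
      · exact key ⟨0, 1, 0⟩ (by simp [rules0]) (by simp [h5]) (by simp [pend, hg', h5, npend])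
          (by simp [cst, hg'])
      · exact key ⟨1, 2, 0⟩ (by simp [rules0]) (by simp [h5]) (by simp [pend, hg', h5, npend])
          (by simp [cst, hg'])
  | succ i ih =>
    intro hi9 hle
    rw [Finset.sum_range_succ] at hle ⊢
    set t0 := u + ∑ j ∈ Finset.range (i + 1), cst s g j with ht0
    have ih' := ih (by omega) (by omega)
    have hassoc : u + (∑ j ∈ Finset.range (i + 1), cst s g j + cst s g (i + 1)) =
        t0 + cst s g (i + 1) := by omega
    rw [hassoc] at hle ⊢
    set w := mix s g (i + 1) with hw
    have hwlt := mix_lt s g hs (i + 1)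
    have hx := wi_lt w hwlt 10
    have hd1 := wi_digit w hwlt i 10 (by omega)
    have hd2 := wi_digit w hwlt (i + 1) 10 (by omega)
    have hup := wi_update2 w (mix s g (i + 1 + 1)) i (fun j hj1 hj2 => by
      rw [hw]
      unfold mix
      by_cases hj : j + 1 < i + 1
      · rw [if_pos hj, if_pos (by omega)]
      · rw [if_neg hj, if_neg (by omega), if_neg (by omega), if_neg (by omega)]) 10 (by omega)
    have e1 : w i = pend s g i := by simp [hw, mix]
    have e2 : w (i + 1) = s (i + 1) := by simp [hw, mix]
    have e3 : mix s g (i + 1 + 1) i = newd s g i := by simp [mix]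
    have e4 : mix s g (i + 1 + 1) (i + 1) = pend s g (i + 1) := by simp [mix]
    rw [e1] at hd1
    rw [e2] at hd2
    rw [e1, e2, e3, e4] at hup
    have key : ∀ (R : List Rule) (r : Rule), run (i + 1) = stage i R (run i) → r ∈ R →
        r.p = pend s g i → r.s = s (i + 1) → r.p' = newd s g i → r.s' = pend s g (i + 1) →
        r.c = cst s g (i + 1) →
        ((run (i + 1)).getD (t0 + cst s g (i + 1)) 0).testBit
          (wi (mix s g (i + 1 + 1)) 10) = true := by
      intro R r hrun hr h1 h2 h3 h4 h5
      rw [hrun]
      have := stage_sound i (by omega) R (run i) r hr (t0 + cst s g (i + 1)) (wi w 10) hle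
        (by omega) (by rw [h5, Nat.add_sub_cancel]; exact ih') hx (by rw [hd1, h1])
        (by rw [hd2, h2]) (by rw [h1, h2]; exact hup.2)
      have h6 : wi w 10 - (r.p * 3 ^ i + r.s * 3 ^ (i + 1)) +
          (r.p' * 3 ^ i + r.s' * 3 ^ (i + 1)) = wi (mix s g (i + 1 + 1)) 10 := by
        rw [h1, h2, h3, h4]
        omega
      rw [h6] at this
      exact this
    have hp3 := pend_lt s g i
    have hs3 := hs (i + 1)
    by_cases hg : g (i + 1) = true
    · -- guard rule
      have hmem : (⟨pend s g i, s (i + 1), gprev (pend s g i), 0, gcost (pend s g i) (s (i + 1))⟩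
          : Rule) ∈ grules := by
        unfold grules
        rw [List.mem_flatMap]
        refine ⟨pend s g i, ?_, ?_⟩
        · simp only [List.mem_cons, List.not_mem_nil, or_false]
          omega
        · rw [List.mem_map]
          refine ⟨s (i + 1), ?_, rfl⟩
          simp only [List.mem_cons, List.not_mem_nil, or_false]
          omega
      have hc : gcost (pend s g i) (s (i + 1)) = cst s g (i + 1) := by
        rw [cst_succ, if_pos hg]
      have hn : gprev (pend s g i) = newd s g i := by
        unfold newd; rw [if_pos hg]
      have hpe : (0 : Nat) = pend s g (i + 1) := ((pend_eq_zero s g (i + 1)).mpr hg).symm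
      by_cases hi8 : i = 8
      · subst hi8
        exact key (grules ++ nrules ++ lrules) _ rfl
          (List.mem_append_left _ (List.mem_append_left _ hmem)) rfl rfl hn hpe hc
      · exact key (grules ++ nrules) _ (by conv_lhs => unfold run
                                           rw [if_neg hi8])
          (List.mem_append_left _ hmem) rfl rfl hn hpe hc
    · have hg' : g (i + 1) = false := by simpa using hg
      have hn : pend s g i = newd s g i := by
        unfold newd; simp [hg']
      have hc : ncost (pend s g i) (s (i + 1)) = cst s g (i + 1) := by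
        rw [cst_succ, if_neg hg]
      have hpe : npend (pend s g i) (s (i + 1)) = pend s g (i + 1) := by
        have h0 := pend_eq_zero s g i
        rw [pend_succ, if_neg hg]
        unfold npend
        by_cases hgi : g i = true
        · rw [h0.mpr hgi]; simp [hgi]
        · have h1 : pend s g i ≠ 0 := fun h => hgi (h0.mp h)
          simp [hgi, h1]
      by_cases h2 : s (i + 1) = 2
      · -- only possible at the last cell
        have hi8 : i = 8 := by
          by_contra hne
          exact hcon (i + 1) (by omega) hg' h2
        subst hi8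
        have hmem : (⟨pend s g 8, 2, pend s g 8, npend (pend s g 8) 2,
            ncost (pend s g 8) 2⟩ : Rule) ∈ lrules := by
          unfold lrules
          rw [List.mem_map]
          refine ⟨pend s g 8, ?_, rfl⟩
          simp only [List.mem_cons, List.not_mem_nil, or_false]
          omega
        exact key (grules ++ nrules ++ lrules) _ rfl (List.mem_append_right _ hmem) rfl h2.symm hn
          (by rw [← hpe, h2]) (by rw [← hc, h2])
      · have hmem : (⟨pend s g i, s (i + 1), pend s g i, npend (pend s g i) (s (i + 1)),
            ncost (pend s g i) (s (i + 1))⟩ : Rule) ∈ nrules := by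
          unfold nrules
          rw [List.mem_flatMap]
          refine ⟨pend s g i, ?_, ?_⟩
          · simp only [List.mem_cons, List.not_mem_nil, or_false]
            omega
          · rw [List.mem_map]
            refine ⟨s (i + 1), ?_, rfl⟩
            simp only [List.mem_cons, List.not_mem_nil, or_false]
            omega
        by_cases hi8 : i = 8
        · subst hi8
          exact key (grules ++ nrules ++ lrules) _ rfl
            (List.mem_append_left _ (List.mem_append_right _ hmem)) rfl rfl hn hpe hc
        · exact key (grules ++ nrules) _ (by conv_lhs => unfold run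
                                             rw [if_neg hi8])
            (List.mem_append_right _ hmem) rfl rfl hn hpe hc

/-- The potential inequality for one step from a column to the next one. -/
theorem step_lemma (s s' : Nat → Nat) (g : Nat → Bool) (hs : ∀ j, s j < 3)
    (hcon : ∀ i < 9, g i = false → s i ≠ 2) (hg10 : g 10 = false)
    (hs' : ∀ j < 10, s' j = newd s g j) (hs'3 : ∀ j, s' j < 3) (u : Nat) (hu : u ≤ 8)
    (hpot : (levels.getD u 0).testBit (wi s 10) = true) :
    ∃ u' ≤ 8, (levels.getD u' 0).testBit (wi s' 10) = true ∧
      u' + 1 ≤ u + ∑ j ∈ Finset.range 10, cst s g j := by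
  have hx := wi_lt s' hs'3 10
  by_cases hle : u + ∑ j ∈ Finset.range 10, cst s g j ≤ 8
  · have h1 := chain s g hs hcon u hpot 9 (le_refl _) hle
    have h2 : wi (mix s g (9 + 1)) 10 = wi s' 10 := by
      apply wi_congr
      intro j hj
      rw [hs' j hj]
      unfold mix
      by_cases h9 : j + 1 < 9 + 1
      · rw [if_pos h9]
      · have : j = 9 := by omega
        subst this
        simp [newd, hg10]
    rw [h2] at h1
    have hchk := check_ok
    unfold checkFinal at hchk
    rw [Bool.and_eq_true, List.all_eq_true] at hchk
    obtain ⟨h3, h4⟩ := hchk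
    rcases Nat.eq_zero_or_pos (u + ∑ j ∈ Finset.range 10, cst s g j) with h0 | h0
    · have h5 : (run 9).getD 0 0 = 0 := by simpa using h3
      have h1' : ((run 9).getD (u + ∑ j ∈ Finset.range 10, cst s g j) 0).testBit (wi s' 10)
        = true := h1
      rw [h0, h5] at h1'
      simp at h1'
    · obtain ⟨t, ht⟩ : ∃ t, u + ∑ j ∈ Finset.range 10, cst s g j = t + 1 :=
        ⟨u + ∑ j ∈ Finset.range 10, cst s g j - 1, by omega⟩
      have h5 := h4 t (List.mem_range.mpr (by omega))
      rw [beq_iff_eq] at h5
      have h1' : ((run 9).getD (u + ∑ j ∈ Finset.range 10, cst s g j) 0).testBit (wi s' 10)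
        = true := h1
      rw [ht] at h1'
      refine ⟨t, by omega, ?_, by omega⟩
      rw [← h5, Nat.testBit_or, h1']
      rfl
  · refine ⟨8, le_refl _, ?_, by omega⟩
    have : levels.getD 8 0 = 2 ^ 3 ^ 10 - 1 := rfl
    rw [this, Nat.testBit_two_pow_sub_one]
    simpa using hx

end Pool.Agent.EternalGrid
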