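import Pool.Agent.EternalGrid.Final

/-! Explicit constants, memoryless strategies with boundedly many positions, and the domino
strategy for small boards. -/

namespace Pool.Agent.EternalGrid

/-- The grid graph. -/
def grid (n : ℕ) : SimpleGraph (Fin n × Fin n) :=
  SimpleGraph.boxProd (SimpleGraph.pathGraph n) (SimpleGraph.pathGraph n)

/-- Every vertex is in `D` or has a neighbour in `D`. -/
def Dominates {V : Type} (G : SimpleGraph V) (D : Finset V) : Prop :=
  ∀ v, v ∈ D ∨ ∃ u ∈ D, G.Adj u v

/-- One simultaneous move of the guards from `D` to `D'`: every guard stays or moves to a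
neighbour, no two guards end on the same vertex. -/
def Moves {V : Type} [DecidableEq V] (G : SimpleGraph V) (D D' : Finset V) : Prop :=
  ∃ f : V → V, Set.InjOn f (D : Set V) ∧ D.image f = D' ∧ ∀ x ∈ D, f x = x ∨ G.Adj x (f x)

/-- A family of positions closed under answers. -/
def Closed {V : Type} [DecidableEq V] (G : SimpleGraph V) (F : Set (Finset V)) : Prop :=
  ∀ D ∈ F, ∀ v : V, ∃ D' ∈ F, v ∈ D' ∧ Moves G D D'

section general

variable {V : Type} [DecidableEq V] {G : SimpleGraph V}

lemma Moves.refl (D : Finset V) : Moves G D D :=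
  ⟨id, Set.injOn_id _, Finset.image_id, fun _ _ => Or.inl rfl⟩

lemma Moves.card_eq {D D' : Finset V} (h : Moves G D D') : D'.card = D.card := by
  obtain ⟨f, h1, h2, _⟩ := h
  rw [← h2, Finset.card_image_of_injOn h1]

lemma Closed.dominates {F : Set (Finset V)} (h : Closed G F) {D : Finset V} (hD : D ∈ F) :
    Dominates G D := by
  intro v
  obtain ⟨D', _, hv, f, _, h2, h3⟩ := h D hD v
  rw [← h2, Finset.mem_image] at hv
  obtain ⟨u, hu, rfl⟩ := hv
  rcases h3 u hu with h4 | h4
  · left; rw [h4]; exact hu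
  · right; exact ⟨u, hu, h4⟩

/-- The family of the positions that meet every pair `{p, σ p}` in exactly one vertex. -/
def pairFam (σ : V → V) : Set (Finset V) :=
  {D | ∀ p, (p ∈ D ∨ σ p ∈ D) ∧ (p ∈ D → σ p ∈ D → σ p = p)}

lemma pairFam_closed {σ : V → V} (hσ : ∀ p, σ (σ p) = p)
    (hadj : ∀ p, σ p = p ∨ G.Adj p (σ p)) : Closed G (pairFam σ) := by
  intro D hD v
  by_cases hv : v ∈ D
  · exact ⟨D, hD, hv, Moves.refl D⟩
  have hs : σ v ∈ D := (hD v).1.resolve_left hv
  have hne : σ v ≠ v := fun h => hv (h ▸ hs)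
  refine ⟨insert v (D.erase (σ v)), ?_, Finset.mem_insert_self _ _,
    fun x => if x = σ v then v else x, ?_, ?_, ?_⟩
  · intro p
    constructor
    · by_cases h1 : p = v
      · left; rw [h1]; exact Finset.mem_insert_self _ _
      by_cases h2 : p = σ v
      · right; rw [h2, hσ]; exact Finset.mem_insert_self _ _
      have h3 : σ p ≠ σ v := fun h => h1 (by rw [← hσ p, h, hσ])
      rcases (hD p).1 with h | h
      · left; exact Finset.mem_insert_of_mem (Finset.mem_erase.2 ⟨h2, h⟩)
      · right; exact Finset.mem_insert_of_mem (Finset.mem_erase.2 ⟨h3, h⟩)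
    · intro h1 h2
      rw [Finset.mem_insert, Finset.mem_erase] at h1 h2
      rcases h1 with h1 | ⟨h1, h1'⟩
      · subst h1
        rcases h2 with h2 | ⟨h2, _⟩
        · exact h2
        · exact absurd rfl h2
      · rcases h2 with h2 | ⟨h2, h2'⟩
        · exfalso; apply h1; rw [← h2, hσ]
        · exact (hD p).2 h1' h2'
  · intro x hx y hy hxy
    simp only at hxy
    have hx' : x ∈ D := hx
    have hy' : y ∈ D := hy
    by_cases h1 : x = σ v <;> by_cases h2 : y = σ v
    · rw [h1, h2]
    · rw [if_pos h1, if_neg h2] at hxy; exact absurd (hxy ▸ hy') hv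
    · rw [if_neg h1, if_pos h2] at hxy; exact absurd (hxy ▸ hx') hv
    · rw [if_neg h1, if_neg h2] at hxy; exact hxy
  · ext x
    rw [Finset.mem_image, Finset.mem_insert, Finset.mem_erase]
    constructor
    · rintro ⟨y, hy, rfl⟩
      by_cases h1 : y = σ v
      · left; rw [if_pos h1]
      · right; rw [if_neg h1]; exact ⟨h1, hy⟩
    · rintro (rfl | ⟨h1, h2⟩)
      · exact ⟨_, hs, if_pos rfl⟩
      · exact ⟨x, h2, if_neg h1⟩
  · intro x _
    by_cases h1 : x = σ v
    · right
      simp only [if_pos h1]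
      rw [h1]
      rcases hadj v with h | h
      · exact absurd h hne
      · exact h.symm
    · left; simp only [if_neg h1]

omit [DecidableEq V] in
lemma pairFam_nonempty [Fintype V] {σ : V → V} (hσ : ∀ p, σ (σ p) = p) (e : V → ℕ)
    (he : Function.Injective e) : (pairFam σ).Nonempty := by
  refine ⟨Finset.univ.filter (fun p => e p ≤ e (σ p)), fun p => ⟨?_, ?_⟩⟩
  · rcases Nat.le_total (e p) (e (σ p)) with h | h
    · left; exact Finset.mem_filter.2 ⟨Finset.mem_univ _, h⟩
    · right; exact Finset.mem_filter.2 ⟨Finset.mem_univ _, by rw [hσ]; exact h⟩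
  · intro h1 h2
    have h1' := (Finset.mem_filter.1 h1).2
    have h2' := (Finset.mem_filter.1 h2).2
    rw [hσ] at h2'
    exact he (le_antisymm h2' h1')

lemma pairFam_card [Fintype V] {σ : V → V} (hσ : ∀ p, σ (σ p) = p)
    {D : Finset V} (hD : D ∈ pairFam σ) :
    2 * D.card = Fintype.card V + (Finset.univ.filter (fun p => σ p = p)).card := by
  have hinj : Function.Injective σ := fun a b h => by rw [← hσ a, h, hσ]
  have h1 : D ∪ D.image σ = Finset.univ := by
    ext p
    simp only [Finset.mem_union, Finset.mem_image, Finset.mem_univ, iff_true]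
    rcases (hD p).1 with h | h
    · exact Or.inl h
    · exact Or.inr ⟨σ p, h, hσ p⟩
  have h2 : D ∩ D.image σ = Finset.univ.filter (fun p => σ p = p) := by
    ext p
    simp only [Finset.mem_inter, Finset.mem_image, Finset.mem_filter, Finset.mem_univ, true_and]
    constructor
    · rintro ⟨h3, q, h4, rfl⟩
      have h5 : σ (σ q) ∈ D := by rw [hσ]; exact h4
      exact (hD (σ q)).2 h3 h5
    · intro h
      have h3 : p ∈ D := by
        rcases (hD p).1 with h4 | h4
        · exact h4
        · rw [h] at h4; exact h4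
      exact ⟨h3, p, h3, h⟩
  have h3 := Finset.card_union_add_card_inter D (D.image σ)
  rw [h1, h2, Finset.card_image_of_injective _ hinj, Finset.card_univ] at h3
  omega

end general

/-! ### Dominoes on the square board -/

/-- The partner of a cell in the domino tiling (one cell is left over if `n` is odd). -/
def mate (n : ℕ) (p : Fin n × Fin n) : Fin n × Fin n :=
  if p.2.1 % 2 = 1 then (p.1, ⟨p.2.1 - 1, by have := p.2.2; omega⟩)
  else if h : p.2.1 + 1 < n then (p.1, ⟨p.2.1 + 1, h⟩)
  else if p.1.1 % 2 = 1 then (⟨p.1.1 - 1, by have := p.1.2; omega⟩, p.2)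
  else if h : p.1.1 + 1 < n then (⟨p.1.1 + 1, h⟩, p.2)
  else p

lemma mate_fst (n : ℕ) (p : Fin n × Fin n) : ((mate n p).1 : ℕ) =
    if p.2.1 % 2 = 1 then p.1.1 else if p.2.1 + 1 < n then p.1.1
    else if p.1.1 % 2 = 1 then p.1.1 - 1 else if p.1.1 + 1 < n then p.1.1 + 1 else p.1.1 := by
  unfold mate
  split_ifs <;> rfl

lemma mate_snd (n : ℕ) (p : Fin n × Fin n) : ((mate n p).2 : ℕ) =
    if p.2.1 % 2 = 1 then p.2.1 - 1 else if p.2.1 + 1 < n then p.2.1 + 1 else p.2.1 := by
  unfold mate
  split_ifs <;> rfl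

lemma mate_mate (n : ℕ) (p : Fin n × Fin n) : mate n (mate n p) = p := by
  have hx := p.1.2
  have hy := p.2.2
  apply Prod.ext <;> apply Fin.ext
  · rw [mate_fst, mate_snd, mate_fst]
    split_ifs <;> omega
  · rw [mate_snd, mate_snd]
    split_ifs <;> omega

lemma mate_adj (n : ℕ) (p : Fin n × Fin n) : mate n p = p ∨ (grid n).Adj p (mate n p) := by
  obtain ⟨⟨x, hx⟩, ⟨y, hy⟩⟩ := p
  unfold mate grid
  simp only [SimpleGraph.boxProd_adj, SimpleGraph.pathGraph_adj]
  by_cases h1 : y % 2 = 1
  · right; rw [if_pos h1]; right; exact ⟨Or.inr (by simp only; omega), rfl⟩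
  · rw [if_neg h1]
    by_cases h2 : y + 1 < n
    · right; rw [dif_pos h2]; right; exact ⟨Or.inl (by simp only), rfl⟩
    · rw [dif_neg h2]
      by_cases h3 : x % 2 = 1
      · right; rw [if_pos h3]; left; exact ⟨Or.inr (by simp only; omega), rfl⟩
      · rw [if_neg h3]
        by_cases h4 : x + 1 < n
        · right; rw [dif_pos h4]; left; exact ⟨Or.inl (by simp only), rfl⟩
        · left; rw [dif_neg h4]

lemma mate_fixed (n : ℕ) : (Finset.univ.filter (fun p => mate n p = p)).card ≤ 1 := by
  rw [Finset.card_le_one]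
  have key : ∀ p : Fin n × Fin n, mate n p = p → p.1.1 + 1 = n ∧ p.2.1 + 1 = n := by
    rintro ⟨⟨x, hx⟩, ⟨y, hy⟩⟩ h
    unfold mate at h
    simp only at h
    split_ifs at h with h1 h2 h3 h4 <;> simp only [Prod.mk.injEq, Fin.mk.injEq] at h <;>
      simp only <;> omega
  intro p hp q hq
  have h1 := key p (Finset.mem_filter.1 hp).2
  have h2 := key q (Finset.mem_filter.1 hq).2
  apply Prod.ext <;> apply Fin.ext <;> omega

/-- The domino strategy: at most `(n * n + 1) / 2` guards. -/
theorem domino (n : ℕ) : ∃ F : Set (Finset (Fin n × Fin n)), F.Nonempty ∧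
    (∀ D ∈ F, D.card = (n * n + 1) / 2) ∧ Closed (grid n) F := by
  refine ⟨pairFam (mate n), pairFam_nonempty (mate_mate n)
    (fun p => n * p.1.1 + p.2.1) ?_, ?_, pairFam_closed (mate_mate n) (mate_adj n)⟩
  · rintro ⟨⟨x, hx⟩, ⟨y, hy⟩⟩ ⟨⟨x', hx'⟩, ⟨y', hy'⟩⟩ h
    simp only at h
    have h1 : x = x' := by
      have e1 : (n * x + y) / n = x := by
        rw [Nat.mul_add_div (by omega), Nat.div_eq_of_lt hy, add_zero]
      have e2 : (n * x' + y') / n = x' := by
        rw [Nat.mul_add_div (by omega), Nat.div_eq_of_lt hy', add_zero]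
      rw [← e1, ← e2, h]
    subst h1
    simp only [Prod.mk.injEq, Fin.mk.injEq, true_and]
    omega
  · intro D hD
    have h1 := pairFam_card (mate_mate n) hD
    have h2 := mate_fixed n
    rw [Fintype.card_prod, Fintype.card_fin] at h1
    omega

/-! ### Large boards -/

theorem closed_of_ok {m k n : Nat} {cfg : List Nat} {E : List Edge} (hn : n = m + 5 * k)
    (hm : 13 ≤ m) (hm' : m ≤ 31) (hlen : 0 < cfg.length) (hok : okAll m cfg E = true) :
    ∃ F : Finset (Finset (Fin n × Fin n)), F.Nonempty ∧ F.card ≤ cfg.length ∧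
      (∀ D ∈ F, D.card = (conf k n (cfg.getD 0 0)).card) ∧
      Closed (grid n) (F : Set (Finset (Fin n × Fin n))) := by
  classical
  unfold okAll at hok
  rw [Bool.and_eq_true, List.all_eq_true, List.all_eq_true] at hok
  obtain ⟨hE, hC⟩ := hok
  have hmem : ∀ D : Finset (Fin n × Fin n),
      D ∈ ((Finset.range cfg.length).image (fun i => conf k n (cfg.getD i 0))).filter
        (fun D => D.card = (conf k n (cfg.getD 0 0)).card) ↔
      ∃ i < cfg.length, D = conf k n (cfg.getD i 0) ∧
        D.card = (conf k n (cfg.getD 0 0)).card := by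
    intro D
    rw [Finset.mem_filter, Finset.mem_image]
    constructor
    · rintro ⟨⟨i, hi, rfl⟩, h⟩
      exact ⟨i, Finset.mem_range.1 hi, rfl, h⟩
    · rintro ⟨i, hi, rfl, h⟩
      exact ⟨⟨i, Finset.mem_range.2 hi, rfl⟩, h⟩
  refine ⟨((Finset.range cfg.length).image (fun i => conf k n (cfg.getD i 0))).filter
    (fun D => D.card = (conf k n (cfg.getD 0 0)).card), ⟨_, (hmem _).2 ⟨0, hlen, rfl, rfl⟩⟩,
    ?_, ?_, ?_⟩
  · refine (Finset.card_filter_le _ _).trans (Finset.card_image_le.trans ?_)
    rw [Finset.card_range]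
  · intro D hD
    exact (Finset.mem_filter.1 hD).2
  · intro D hD v
    obtain ⟨i, hi, hD, hcard⟩ := (hmem D).1 hD
    by_cases hv : v ∈ D
    · exact ⟨D, Finset.mem_coe.2 ((hmem D).2 ⟨i, hi, hD, hcard⟩), hv, Moves.refl D⟩
    have hx : (v.1 : ℕ) < m + 5 * k := hn ▸ v.1.isLt
    have hy : (v.2 : ℕ) < m + 5 * k := hn ▸ v.2.isLt
    have hX := pp_lt m k _ hm hx
    have hY := pp_lt m k _ hm hy
    have h1 := hC i (List.mem_range.mpr hi)
    rw [beq_iff_eq] at h1
    have h2 : (bm m m).testBit (pp k v.1 + 32 * pp k v.2) = true := by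
      rw [testBit_bm m (by omega) _ _ (by omega)]
      exact ⟨hX, hY⟩
    have h3 := testBit_of_or_eq h1 _ h2
    unfold cover at h3
    rcases foldl_cover _ _ _ _ h3 with h4 | ⟨e, he, h4⟩
    · exfalso
      apply hv
      rw [hD, conf, Finset.mem_filter]
      exact ⟨Finset.mem_univ _, h4⟩
    · have hf := edgeFacts_of_ok hm hm' (hE e he) k
      have hst : e.s < cfg.length ∧ e.t < cfg.length := by
        have := hE e he
        unfold okEdge at this
        simp only [Bool.and_eq_true, decide_eq_true_eq] at this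
        exact ⟨this.1.2, this.2⟩
      rw [Nat.testBit_or, Bool.or_eq_true] at h4
      rcases h4 with h4 | h4
      · by_cases hs : e.s = i
        · rw [if_pos hs] at h4
          obtain ⟨f, f1, f2, f3⟩ := edge_forward hn hf
          rw [hs] at f1 f2 f3
          rw [hD]
          refine ⟨conf k n (cfg.getD e.t 0), Finset.mem_coe.2 ((hmem _).2 ⟨e.t, hst.2, rfl, ?_⟩),
            ?_, f, f1, f2, f3⟩
          · rw [← f2, Finset.card_image_of_injOn f1, ← hD, hcard]
          · rw [conf, Finset.mem_filter]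
            exact ⟨Finset.mem_univ _, h4⟩
        · rw [if_neg hs, Nat.zero_testBit] at h4
          exact absurd h4 (by decide)
      · by_cases hs : e.t = i
        · rw [if_pos hs] at h4
          obtain ⟨f, f1, f2, f3⟩ := edge_backward hn hf
          rw [hs] at f1 f2 f3
          rw [hD]
          refine ⟨conf k n (cfg.getD e.s 0), Finset.mem_coe.2 ((hmem _).2 ⟨e.s, hst.1, rfl, ?_⟩),
            ?_, f, f1, f2, f3⟩
          · rw [← f2, Finset.card_image_of_injOn f1, ← hD, hcard]
          · rw [conf, Finset.mem_filter]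
            exact ⟨Finset.mem_univ _, h4⟩
        · rw [if_neg hs, Nat.zero_testBit] at h4
          exact absurd h4 (by decide)

/-- For `n ≥ 21`: at most 30 positions, and the exact number of guards up to a constant. -/
theorem closed_large (n : ℕ) (hn : 21 ≤ n) :
    ∃ F : Finset (Finset (Fin n × Fin n)), F.Nonempty ∧ F.card ≤ 30 ∧
      (∃ K, (∀ D ∈ F, D.card = K) ∧ 5 * K ≤ n * n + 4 * n + 960) ∧
      Closed (grid n) (F : Set (Finset (Fin n × Fin n))) := by
  have h5 : n % 5 = 0 ∨ n % 5 = 1 ∨ n % 5 = 2 ∨ n % 5 = 3 ∨ n % 5 = 4 := by omega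
  rcases h5 with h | h | h | h | h
  · have hk : n = 25 + 5 * ((n - 25) / 5) := by omega
    obtain ⟨F, h1, h2, h3, h4⟩ := closed_of_ok hk (by norm_num) (by norm_num) len0 ok0
    refine ⟨F, h1, h2.trans (by decide +kernel), ⟨_, h3, ?_⟩, h4⟩
    rw [card_conf_of_cnts hk (by norm_num) cnt0]
    generalize (n - 25) / 5 = k at hk
    subst hk
    ring_nf
    omega
  · have hk : n = 21 + 5 * ((n - 21) / 5) := by omega
    obtain ⟨F, h1, h2, h3, h4⟩ := closed_of_ok hk (by norm_num) (by norm_num) len1 ok1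
    refine ⟨F, h1, h2.trans (by decide +kernel), ⟨_, h3, ?_⟩, h4⟩
    rw [card_conf_of_cnts hk (by norm_num) cnt1]
    generalize (n - 21) / 5 = k at hk
    subst hk
    ring_nf
    omega
  · have hk : n = 22 + 5 * ((n - 22) / 5) := by omega
    obtain ⟨F, h1, h2, h3, h4⟩ := closed_of_ok hk (by norm_num) (by norm_num) len2 ok2
    refine ⟨F, h1, h2.trans (by decide +kernel), ⟨_, h3, ?_⟩, h4⟩
    rw [card_conf_of_cnts hk (by norm_num) cnt2]
    generalize (n - 22) / 5 = k at hk
    subst hk
    ring_nf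
    omega
  · have hk : n = 23 + 5 * ((n - 23) / 5) := by omega
    obtain ⟨F, h1, h2, h3, h4⟩ := closed_of_ok hk (by norm_num) (by norm_num) len3 ok3
    refine ⟨F, h1, h2.trans (by decide +kernel), ⟨_, h3, ?_⟩, h4⟩
    rw [card_conf_of_cnts hk (by norm_num) cnt3]
    generalize (n - 23) / 5 = k at hk
    subst hk
    ring_nf
    omega
  · have hk : n = 24 + 5 * ((n - 24) / 5) := by omega
    obtain ⟨F, h1, h2, h3, h4⟩ := closed_of_ok hk (by norm_num) (by norm_num) len4 ok4
    refine ⟨F, h1, h2.trans (by decide +kernel), ⟨_, h3, ?_⟩, h4⟩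
    rw [card_conf_of_cnts hk (by norm_num) cnt4]
    generalize (n - 24) / 5 = k at hk
    subst hk
    ring_nf
    omega

end Pool.Agent.EternalGrid
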