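import Pool.Agent.EternalGrid.Move

/-! From a checked certificate to an eternally dominating family on every board of the residue. -/

namespace Pool.Agent.EternalGrid

/-- The property used in the frozen statement. -/
def Eternal (n k : ℕ) : Prop :=
  ∃ F : Set (Finset (Fin n × Fin n)), F.Nonempty ∧
    (∀ D ∈ F, D.card = k) ∧
    ∀ D ∈ F, ∀ v : Fin n × Fin n, ∃ D' ∈ F, v ∈ D' ∧
      ∃ f : Fin n × Fin n → Fin n × Fin n,
        Set.InjOn f (D : Set (Fin n × Fin n)) ∧ D.image f = D' ∧
        ∀ x ∈ D, f x = x ∨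
          (SimpleGraph.boxProd (SimpleGraph.pathGraph n)
            (SimpleGraph.pathGraph n)).Adj x (f x)

lemma edge_forward {m k n a b : Nat} {e : Edge} (hn : n = m + 5 * k)
    (H : EdgeFacts m k a b e) : ∃ f : Fin n × Fin n → Fin n × Fin n,
      Set.InjOn f (conf k n a : Set (Fin n × Fin n)) ∧ (conf k n a).image f = conf k n b ∧
        ∀ x ∈ conf k n a, f x = x ∨
          (SimpleGraph.boxProd (SimpleGraph.pathGraph n)
            (SimpleGraph.pathGraph n)).Adj x (f x) := by
  obtain ⟨f, h1, h2, h3⟩ := (edge_moveRel hn H).exists_move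
  exact ⟨f, h1, h2, fun x hx => mv_adj (h3 x hx)⟩

lemma edge_backward {m k n a b : Nat} {e : Edge} (hn : n = m + 5 * k)
    (H : EdgeFacts m k a b e) : ∃ f : Fin n × Fin n → Fin n × Fin n,
      Set.InjOn f (conf k n b : Set (Fin n × Fin n)) ∧ (conf k n b).image f = conf k n a ∧
        ∀ x ∈ conf k n b, f x = x ∨
          (SimpleGraph.boxProd (SimpleGraph.pathGraph n)
            (SimpleGraph.pathGraph n)).Adj x (f x) := by
  obtain ⟨f, h1, h2, h3⟩ := (edge_moveRel hn H).symm.exists_move
  refine ⟨f, h1, h2, fun x hx => ?_⟩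
  rcases mv_adj (h3 x hx) with h | h
  · exact Or.inl h.symm
  · exact Or.inr h.symm

theorem eternal_of_ok {m k n : Nat} {cfg : List Nat} {E : List Edge} (hn : n = m + 5 * k)
    (hm : 13 ≤ m) (hm' : m ≤ 31) (hlen : 0 < cfg.length) (hok : okAll m cfg E = true) :
    Eternal n (conf k n (cfg.getD 0 0)).card := by
  unfold okAll at hok
  rw [Bool.and_eq_true, List.all_eq_true, List.all_eq_true] at hok
  obtain ⟨hE, hC⟩ := hok
  refine ⟨{D | ∃ i < cfg.length, D = conf k n (cfg.getD i 0) ∧
    D.card = (conf k n (cfg.getD 0 0)).card}, ⟨_, 0, hlen, rfl, rfl⟩, ?_, ?_⟩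
  · rintro D ⟨i, _, _, h⟩
    exact h
  · rintro D ⟨i, hi, hD, hcard⟩ v
    by_cases hv : v ∈ D
    · exact ⟨D, ⟨i, hi, hD, hcard⟩, hv, id, Set.injOn_id _, Finset.image_id, fun x _ => Or.inl rfl⟩
    have hx : (v.1 : ℕ) < m + 5 * k := hn ▸ v.1.isLt
    have hy : (v.2 : ℕ) < m + 5 * k := hn ▸ v.2.isLt
    have hX := pp_lt m k _ hm hx
    have hY := pp_lt m k _ hm hy
    have h1 := hC i (List.mem_range.mpr hi)
    rw [beq_iff_eq] at h1
    have h2 : (bm m m).testBit (pp k v.1 + 32 * pp k v.2) = true := by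
      rw [testBit_bm m (by omega) _ _ (by omega)]
      exact ⟨hX, hY⟩
    have h3 := testBit_of_or_eq h1 _ h2
    unfold cover at h3
    rcases foldl_cover _ _ _ _ h3 with h4 | ⟨e, he, h4⟩
    · exfalso
      apply hv
      rw [hD, conf, Finset.mem_filter]
      exact ⟨Finset.mem_univ _, h4⟩
    · have hf := edgeFacts_of_ok hm hm' (hE e he) k
      have hst : e.s < cfg.length ∧ e.t < cfg.length := by
        have := hE e he
        unfold okEdge at this
        simp only [Bool.and_eq_true, decide_eq_true_eq] at this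
        exact ⟨this.1.2, this.2⟩
      rw [Nat.testBit_or, Bool.or_eq_true] at h4
      rcases h4 with h4 | h4
      · by_cases hs : e.s = i
        · rw [if_pos hs] at h4
          obtain ⟨f, f1, f2, f3⟩ := edge_forward hn hf
          rw [hs] at f1 f2 f3
          rw [hD]
          refine ⟨conf k n (cfg.getD e.t 0), ⟨e.t, hst.2, rfl, ?_⟩, ?_, f, f1, f2, f3⟩
          · rw [← f2, Finset.card_image_of_injOn f1, ← hD, hcard]
          · rw [conf, Finset.mem_filter]
            exact ⟨Finset.mem_univ _, h4⟩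
        · rw [if_neg hs, Nat.zero_testBit] at h4
          exact absurd h4 (by decide)
      · by_cases hs : e.t = i
        · rw [if_pos hs] at h4
          obtain ⟨f, f1, f2, f3⟩ := edge_backward hn hf
          rw [hs] at f1 f2 f3
          rw [hD]
          refine ⟨conf k n (cfg.getD e.s 0), ⟨e.s, hst.1, rfl, ?_⟩, ?_, f, f1, f2, f3⟩
          · rw [← f2, Finset.card_image_of_injOn f1, ← hD, hcard]
          · rw [conf, Finset.mem_filter]
            exact ⟨Finset.mem_univ _, h4⟩
        · rw [if_neg hs, Nat.zero_testBit] at h4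
          exact absurd h4 (by decide)

/-! ### Counting -/

lemma sum_mid (g : ℕ → ℕ) (K : ℕ) :
    ∑ j ∈ Finset.range (5 * K), g (8 + j % 5) = K * ∑ j ∈ Finset.range 5, g (8 + j) := by
  induction K with
  | zero => simp
  | succ K ih =>
    rw [Nat.mul_succ, Finset.sum_range_add, ih, Nat.succ_mul K]
    congr 1
    apply Finset.sum_congr rfl
    intro j hj
    rw [Finset.mem_range] at hj
    congr 2
    omega

lemma sum_pp (g : ℕ → ℕ) (m k : ℕ) (hm : 13 ≤ m) :
    ∑ x ∈ Finset.range (m + 5 * k), g (pp k x) =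
      (∑ j ∈ Finset.range 8, g j + ∑ j ∈ Finset.range (m - 13), g (13 + j)) +
        (k + 1) * ∑ j ∈ Finset.range 5, g (8 + j) := by
  have h : m + 5 * k = 8 + 5 * (k + 1) + (m - 13) := by omega
  rw [h, Finset.sum_range_add, Finset.sum_range_add]
  have h1 : ∑ x ∈ Finset.range 8, g (pp k x) = ∑ j ∈ Finset.range 8, g j := by
    apply Finset.sum_congr rfl
    intro x hx
    rw [Finset.mem_range] at hx
    unfold pp
    rw [if_pos hx]
  have h2 : ∑ x ∈ Finset.range (5 * (k + 1)), g (pp k (8 + x)) =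
      (k + 1) * ∑ j ∈ Finset.range 5, g (8 + j) := by
    rw [← sum_mid]
    apply Finset.sum_congr rfl
    intro x hx
    rw [Finset.mem_range] at hx
    unfold pp
    rw [if_neg (by omega), if_pos (by omega)]
    congr 2
    omega
  have h3 : ∑ x ∈ Finset.range (m - 13), g (pp k (8 + 5 * (k + 1) + x)) =
      ∑ j ∈ Finset.range (m - 13), g (13 + j) := by
    apply Finset.sum_congr rfl
    intro x hx
    unfold pp
    rw [if_neg (by omega), if_neg (by omega)]
    congr 1
    omega
  rw [h1, h2, h3]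
  ring

/-- the outer part of a sum over the small board -/
def so (m : ℕ) (g : ℕ → ℕ) : ℕ :=
  ∑ j ∈ Finset.range 8, g j + ∑ j ∈ Finset.range (m - 13), g (13 + j)

/-- the middle part -/
def sm (g : ℕ → ℕ) : ℕ := ∑ j ∈ Finset.range 5, g (8 + j)

lemma so_add (m : ℕ) (f g : ℕ → ℕ) : so m (fun x => f x + g x) = so m f + so m g := by
  unfold so
  rw [Finset.sum_add_distrib, Finset.sum_add_distrib]
  ring

lemma so_mul (m K : ℕ) (f : ℕ → ℕ) : so m (fun x => K * f x) = K * so m f := by
  unfold so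
  rw [← Finset.mul_sum, ← Finset.mul_sum]
  ring

lemma sm_add (f g : ℕ → ℕ) : sm (fun x => f x + g x) = sm f + sm g := by
  unfold sm
  rw [Finset.sum_add_distrib]

lemma sm_mul (K : ℕ) (f : ℕ → ℕ) : sm (fun x => K * f x) = K * sm f := by
  unfold sm
  rw [← Finset.mul_sum]

lemma double_sum (W : ℕ → ℕ → ℕ) (m k : ℕ) (hm : 13 ≤ m) :
    ∑ x ∈ Finset.range (m + 5 * k), ∑ y ∈ Finset.range (m + 5 * k), W (pp k x) (pp k y) =
      so m (fun x => so m (W x)) + (k + 1) * (so m (fun x => sm (W x)) + sm (fun x => so m (W x))) +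
        (k + 1) * (k + 1) * sm (fun x => sm (W x)) := by
  have h1 : ∀ X, ∑ y ∈ Finset.range (m + 5 * k), W X (pp k y) =
      so m (W X) + (k + 1) * sm (W X) := fun X => sum_pp (W X) m k hm
  simp only [h1]
  have h2 := sum_pp (fun X => so m (W X) + (k + 1) * sm (W X)) m k hm
  rw [h2]
  change so m (fun X => so m (W X) + (k + 1) * sm (W X)) +
    (k + 1) * sm (fun X => so m (W X) + (k + 1) * sm (W X)) = _
  rw [so_add, sm_add, so_mul, sm_mul]
  ring

lemma card_conf (n k M : ℕ) : (conf k n M).card =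
    ∑ x ∈ Finset.range n, ∑ y ∈ Finset.range n, (M.testBit (pp k x + 32 * pp k y)).toNat := by
  unfold conf
  rw [Finset.card_filter, Fintype.sum_prod_type, Finset.sum_range]
  apply Finset.sum_congr rfl
  intro x _
  rw [Finset.sum_range]
  apply Finset.sum_congr rfl
  intro y _
  unfold bt
  cases M.testBit (pp k x + 32 * pp k y) <;> rfl

/-- The three counts of a configuration of the small board. -/
def cnts (m M A B C : ℕ) : Bool :=
  (so m (fun x => so m (fun y => (M.testBit (x + 32 * y)).toNat)) == A) &&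
  (so m (fun x => sm (fun y => (M.testBit (x + 32 * y)).toNat)) +
    sm (fun x => so m (fun y => (M.testBit (x + 32 * y)).toNat)) == B) &&
  (sm (fun x => sm (fun y => (M.testBit (x + 32 * y)).toNat)) == C)

lemma card_conf_of_cnts {m k n M A B C : ℕ} (hn : n = m + 5 * k) (hm : 13 ≤ m)
    (h : cnts m M A B C = true) :
    (conf k n M).card = A + (k + 1) * B + (k + 1) * (k + 1) * C := by
  unfold cnts at h
  simp only [Bool.and_eq_true, beq_iff_eq] at h
  obtain ⟨⟨h1, h2⟩, h3⟩ := h
  rw [card_conf, hn, double_sum (fun x y => (M.testBit (x + 32 * y)).toNat) m k hm, h1, h2, h3]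

end Pool.Agent.EternalGrid
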