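import Pool.Agent.EternalGrid.LowerBound
import Pool.Agent.EternalGrid.Strategy
import Pool.Agent.EternalGrid.Cert0
import Pool.Agent.EternalGrid.Cert1
import Pool.Agent.EternalGrid.Cert2
import Pool.Agent.EternalGrid.Cert3
import Pool.Agent.EternalGrid.Cert4

/-! The two bounds. -/

namespace Pool.Agent.EternalGrid

/-- Lower bound for the domination number of the `n × n` grid. -/
theorem card_lower (n : ℕ) (hn : 20 ≤ n) (D : Finset (Fin n × Fin n))
    (hD : ∀ v : Fin n × Fin n, v ∈ D ∨ ∃ u ∈ D,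
      (SimpleGraph.boxProd (SimpleGraph.pathGraph n) (SimpleGraph.pathGraph n)).Adj u v) :
    n * n + 4 * n ≤ 5 * D.card + 116 := by
  classical
  let c : ℕ → ℕ → Bool := fun x y => decide (∃ p ∈ D, (p.1 : ℕ) + 1 = x ∧ (p.2 : ℕ) + 1 = y)
  have hc : ∀ x y, c x y = true ↔ ∃ p ∈ D, (p.1 : ℕ) + 1 = x ∧ (p.2 : ℕ) + 1 = y := by
    intro x y
    exact decide_eq_true_iff
  have hcf : ∀ x y, (x = 0 ∨ x = n + 1 ∨ y = 0 ∨ y = n + 1) → c x y = false := by
    intro x y h
    rw [Bool.eq_false_iff]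
    intro h'
    obtain ⟨p, _, h1, h2⟩ := (hc x y).1 h'
    have := p.1.isLt
    have := p.2.isLt
    omega
  have hsum : ∑ a ∈ Finset.range n, ∑ b ∈ Finset.range n, (c (a + 1) (b + 1)).toNat = D.card := by
    have h1 : D.card = ∑ p : Fin n × Fin n, if p ∈ D then 1 else 0 := by
      rw [← Finset.card_filter]
      congr 1
      ext p
      simp
    rw [h1, Fintype.sum_prod_type, Finset.sum_range]
    apply Finset.sum_congr rfl
    intro x _
    rw [Finset.sum_range]
    apply Finset.sum_congr rfl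
    intro y _
    by_cases h : (x, y) ∈ D
    · rw [if_pos h, (hc _ _).2 ⟨(x, y), h, rfl, rfl⟩]; rfl
    · rw [if_neg h]
      have : c (x + 1) (y + 1) = false := by
        rw [Bool.eq_false_iff]
        intro h'
        obtain ⟨p, hp, h2, h3⟩ := (hc _ _).1 h'
        apply h
        have : p = (x, y) := Prod.ext (Fin.ext (by simpa using h2)) (Fin.ext (by simpa using h3))
        rw [← this]
        exact hp
      rw [this]; rfl
  rw [← hsum]
  apply lower_aux c n hn
  · intro y; exact hcf _ _ (Or.inl rfl)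
  · intro y; exact hcf _ _ (Or.inr (Or.inl rfl))
  · intro y; exact hcf _ _ (Or.inr (Or.inr (Or.inl rfl)))
  · intro y; exact hcf _ _ (Or.inr (Or.inr (Or.inr rfl)))
  · intro x y hx hx' hy hy'
    rcases hD (⟨x - 1, by omega⟩, ⟨y - 1, by omega⟩) with h | ⟨u, hu, hadj⟩
    · have : c x y = true := (hc _ _).2 ⟨_, h, by simp only []; omega, by simp only []; omega⟩
      unfold dg
      rw [this, Bool.toNat_true]
      omega
    · rw [SimpleGraph.boxProd_adj, SimpleGraph.pathGraph_adj, SimpleGraph.pathGraph_adj] at hadj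
      unfold dg
      rcases hadj with ⟨h1 | h1, h2⟩ | ⟨h1 | h1, h2⟩
      · have h3 : (u.2 : ℕ) = y - 1 := by rw [h2]
        have h4 : (u.1 : ℕ) + 1 = x - 1 := h1
        have : c (x - 1) y = true := (hc _ _).2 ⟨u, hu, by omega, by omega⟩
        rw [this, Bool.toNat_true]
        omega
      · have h3 : (u.2 : ℕ) = y - 1 := by rw [h2]
        have h4 : x - 1 + 1 = (u.1 : ℕ) := h1
        have : c (x + 1) y = true := (hc _ _).2 ⟨u, hu, by omega, by omega⟩
        rw [this, Bool.toNat_true]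
        omega
      · have h3 : (u.1 : ℕ) = x - 1 := by rw [h2]
        have h4 : (u.2 : ℕ) + 1 = y - 1 := h1
        have : c x (y - 1) = true := (hc _ _).2 ⟨u, hu, by omega, by omega⟩
        rw [this, Bool.toNat_true]
        omega
      · have h3 : (u.1 : ℕ) = x - 1 := by rw [h2]
        have h4 : y - 1 + 1 = (u.2 : ℕ) := h1
        have : c x (y + 1) = true := (hc _ _).2 ⟨u, hu, by omega, by omega⟩
        rw [this, Bool.toNat_true]
        omega

lemma eternal_small (n : ℕ) : Eternal n (n * n) := by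
  refine ⟨{Finset.univ}, ⟨_, rfl⟩, ?_, ?_⟩
  · rintro D hD
    rw [Set.mem_singleton_iff] at hD
    rw [hD, Finset.card_univ, Fintype.card_prod, Fintype.card_fin]
  · rintro D hD v
    exact ⟨D, hD, by rw [Set.mem_singleton_iff.1 hD]; exact Finset.mem_univ _, id, Set.injOn_id _,
      Finset.image_id, fun x _ => Or.inl rfl⟩

lemma count_arith {m k A N : ℕ} (hm : 5 ≤ m) (n : ℕ) (hn : n = m + 5 * k) (hA : A ≤ 285)
    (hN : N = A + (k + 1) * (2 * (m - 5) + 4) + (k + 1) * (k + 1) * 5) :
    5 * N ≤ n * n + 4 * n + 1425 := by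
  obtain ⟨q, rfl⟩ : ∃ q, m = q + 5 := ⟨m - 5, by omega⟩
  rw [Nat.add_sub_cancel] at hN
  subst hn hN
  nlinarith [Nat.zero_le (q * q), Nat.zero_le q]

theorem eternal_large (n : ℕ) (hn : 25 ≤ n) :
    ∃ N, Eternal n N ∧ 5 * N ≤ n * n + 4 * n + 1425 := by
  have h5 : n % 5 = 0 ∨ n % 5 = 1 ∨ n % 5 = 2 ∨ n % 5 = 3 ∨ n % 5 = 4 := by omega
  rcases h5 with h | h | h | h | h
  · have hk : n = 25 + 5 * ((n - 25) / 5) := by omega
    exact ⟨_, eternal_of_ok hk (by norm_num) (by norm_num) len0 ok0,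
      count_arith (by norm_num) n hk (by norm_num)
        (card_conf_of_cnts hk (by norm_num) cnt0)⟩
  · have hk : n = 21 + 5 * ((n - 21) / 5) := by omega
    exact ⟨_, eternal_of_ok hk (by norm_num) (by norm_num) len1 ok1,
      count_arith (by norm_num) n hk (by norm_num)
        (card_conf_of_cnts hk (by norm_num) cnt1)⟩
  · have hk : n = 22 + 5 * ((n - 22) / 5) := by omega
    exact ⟨_, eternal_of_ok hk (by norm_num) (by norm_num) len2 ok2,
      count_arith (by norm_num) n hk (by norm_num)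
        (card_conf_of_cnts hk (by norm_num) cnt2)⟩
  · have hk : n = 23 + 5 * ((n - 23) / 5) := by omega
    exact ⟨_, eternal_of_ok hk (by norm_num) (by norm_num) len3 ok3,
      count_arith (by norm_num) n hk (by norm_num)
        (card_conf_of_cnts hk (by norm_num) cnt3)⟩
  · have hk : n = 24 + 5 * ((n - 24) / 5) := by omega
    exact ⟨_, eternal_of_ok hk (by norm_num) (by norm_num) len4 ok4,
      count_arith (by norm_num) n hk (by norm_num)
        (card_conf_of_cnts hk (by norm_num) cnt4)⟩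

theorem main (n : ℕ) :
    sInf {k : ℕ | Eternal n k} ≤ sInf {k : ℕ | ∃ D : Finset (Fin n × Fin n), D.card = k ∧
      ∀ v : Fin n × Fin n, v ∈ D ∨ ∃ u ∈ D,
        (SimpleGraph.boxProd (SimpleGraph.pathGraph n)
          (SimpleGraph.pathGraph n)).Adj u v} + 576 := by
  rcases Nat.lt_or_ge n 25 with hn | hn
  · have h1 : sInf {k : ℕ | Eternal n k} ≤ n * n := Nat.sInf_le (eternal_small n)
    have h2 : n * n ≤ 24 * 24 := Nat.mul_le_mul (by omega) (by omega)
    omega
  · obtain ⟨N, hN, hN'⟩ := eternal_large n hn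
    have h1 : sInf {k : ℕ | Eternal n k} ≤ N := Nat.sInf_le hN
    have hne : {k : ℕ | ∃ D : Finset (Fin n × Fin n), D.card = k ∧
      ∀ v : Fin n × Fin n, v ∈ D ∨ ∃ u ∈ D,
        (SimpleGraph.boxProd (SimpleGraph.pathGraph n)
          (SimpleGraph.pathGraph n)).Adj u v}.Nonempty :=
      ⟨_, Finset.univ, rfl, fun v => Or.inl (Finset.mem_univ v)⟩
    obtain ⟨D, hD1, hD2⟩ := Nat.sInf_mem hne
    have h3 := card_lower n (by omega) D hD2
    rw [hD1] at h3
    omega

end Pool.Agent.EternalGrid
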