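import Mathlib
import Pool.Agent.EternalGrid.DPStep

namespace Pool.Agent.EternalGrid

/-- Number of guards in the closed neighbourhood of the cell `(k + 1, i)`; the rows are counted
from the border of the grid. -/
def deg (G : Nat → Nat → Bool) (k i : Nat) : Nat :=
  (G (k + 1) i).toNat + (G (k + 1) (i + 1)).toNat +
    (if i = 0 then 0 else (G (k + 1) (i - 1)).toNat) + (G k i).toNat + (G (k + 2) i).toNat

/-- restriction to the first ten rows -/
def cut (G : Nat → Nat → Bool) (k i : Nat) : Bool := decide (i < 10) && G k i

/-- digit of the cell `(k+1, i)` -/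
def sym (G : Nat → Nat → Bool) (k i : Nat) : Nat :=
  if cut G (k + 1) i then 0 else
    if cut G (k + 1) (i + 1) || (decide (i ≠ 0) && cut G (k + 1) (i - 1)) || cut G k i
    then 1 else 2

/-- part of the cost attributed to `(k+1, i)` when column `k+1` is added -/
def costO (G : Nat → Nat → Bool) (k i : Nat) : Nat :=
  ((cut G (k + 1) i).toNat + (if i = 0 then 0 else (cut G (k + 1) (i - 1)).toNat) +
    (cut G k i).toNat - 1) +
  (if cut G (k + 1) (i + 1) &&
      (cut G (k + 1) i || (decide (i ≠ 0) && cut G (k + 1) (i - 1)) || cut G k i)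
    then 1 else 0)

/-- part of the cost attributed to `(k+1, i)` when column `k+2` is added -/
def costQ (G : Nat → Nat → Bool) (k i : Nat) : Nat :=
  if cut G (k + 2) i && decide (sym G k i ≠ 2) then 1 else 0

lemma sym_lt (G : Nat → Nat → Bool) (k i : Nat) : sym G k i < 3 := by
  unfold sym; split_ifs <;> omega

lemma sym_eq_zero (G : Nat → Nat → Bool) (k i : Nat) : sym G k i = 0 ↔ cut G (k + 1) i = true := by
  unfold sym
  by_cases h : cut G (k + 1) i = true
  · simp [h]
  · rw [if_neg h]
    constructor
    · intro h2; split_ifs at h2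
    · intro h2; exact absurd h2 h

lemma cost_le_deg (G : Nat → Nat → Bool) (k i : Nat) (hd : 1 ≤ deg G k i) :
    costO G k i + costQ G k i ≤ deg G k i - 1 := by
  have hmono : ∀ a b, (cut G a b).toNat ≤ (G a b).toNat := by
    intro a b
    unfold cut
    cases G a b <;> cases decide (b < 10) <;> simp
  have h1 := hmono (k + 1) i
  have h2 := hmono (k + 1) (i + 1)
  have h3 := hmono (k + 1) (i - 1)
  have h4 := hmono k i
  have h5 := hmono (k + 2) i
  unfold deg at hd ⊢
  unfold costO costQ sym
  generalize cut G (k + 1) i = a1 at *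
  generalize cut G (k + 1) (i + 1) = a2 at *
  generalize cut G (k + 1) (i - 1) = a3 at *
  generalize cut G k i = a4 at *
  generalize cut G (k + 2) i = a5 at *
  by_cases hi : i = 0
  · subst hi
    cases a1 <;> cases a2 <;> cases a4 <;> cases a5 <;> simp at * <;> omega
  · simp only [hi, if_false] at hd ⊢
    cases a1 <;> cases a2 <;> cases a3 <;> cases a4 <;> cases a5 <;> simp [hi] at * <;> omega

lemma sum_cst (G : Nat → Nat → Bool) (k : Nat) :
    ∑ j ∈ Finset.range 10, cst (sym G k) (cut G (k + 2)) j =
      (cut G (k + 2) 0).toNat + ∑ j ∈ Finset.range 10, (costO G (k + 1) j + costQ G k j) := by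
  -- separate the contribution of the upper neighbour
  let own : Nat → Nat := fun i =>
    ((cut G (k + 2) i).toNat + (if i = 0 then 0 else (cut G (k + 2) (i - 1)).toNat) +
      (cut G (k + 1) i).toNat - 1)
  let upc : Nat → Nat := fun i =>
    (if cut G (k + 2) (i + 1) &&
      (cut G (k + 2) i || (decide (i ≠ 0) && cut G (k + 2) (i - 1)) || cut G (k + 1) i)
    then 1 else 0)
  have hO : ∀ j, costO G (k + 1) j = own j + upc j := fun j => rfl
  have hup9 : upc 9 = 0 := by
    simp [upc, cut]
  have h0 : cst (sym G k) (cut G (k + 2)) 0 =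
      (cut G (k + 2) 0).toNat + own 0 + costQ G k 0 := by
    rw [cst_zero]
    have hz := sym_eq_zero G k 0
    simp only [own, costQ]
    unfold gcost0
    by_cases hg : cut G (k + 2) 0 = true
    · rw [if_pos hg]
      simp only [hg, Bool.toNat_true, if_true, Bool.true_and, decide_eq_true_eq]
      by_cases h1 : cut G (k + 1) 0 = true
      · rw [hz.mpr h1, h1]; simp
      · have h2 : sym G k 0 ≠ 0 := fun h => h1 (hz.mp h)
        have h3 : cut G (k + 1) 0 = false := by simpa using h1
        rw [if_neg h2, h3]
        by_cases h4 : sym G k 0 = 2 <;> simp [h4]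
    · have hg' : cut G (k + 2) 0 = false := by simpa using hg
      rw [if_neg hg, hg']
      cases cut G (k + 1) 0 <;> simp
  have hsucc : ∀ j, cst (sym G k) (cut G (k + 2)) (j + 1) =
      own (j + 1) + upc j + costQ G k (j + 1) := by
    intro j
    rw [cst_succ]
    have hz := sym_eq_zero G k (j + 1)
    have hz' := sym_eq_zero G k j
    have hp0 := pend_eq_zero (sym G k) (cut G (k + 2)) j
    have hp2 : pend (sym G k) (cut G (k + 2)) j = 2 ↔
        ¬ (cut G (k + 2) j || (decide (j ≠ 0) && cut G (k + 2) (j - 1)) || cut G (k + 1) j) =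
          true := by
      cases j with
      | zero =>
        rw [pend_zero]
        unfold npend
        by_cases hg : cut G (k + 2) 0 = true
        · simp [hg]
        · rw [if_neg hg]
          by_cases h1 : cut G (k + 1) 0 = true
          · simp [hz'.mpr h1, h1]
          · have h2 : sym G k 0 ≠ 0 := fun h => h1 (hz'.mp h)
            simp [h2, h1, hg]
      | succ j =>
        rw [pend_succ]
        unfold npend
        by_cases hg : cut G (k + 2) (j + 1) = true
        · simp [hg]
        · rw [if_neg hg]
          by_cases h1 : cut G (k + 1) (j + 1) = true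
          · simp [hz'.mpr h1, h1]
          · have h2 : sym G k (j + 1) ≠ 0 := fun h => h1 (hz'.mp h)
            by_cases h3 : cut G (k + 2) j = true
            · simp [h3]
            · simp [h2, h1, hg, h3]
    simp only [own, upc, costQ]
    unfold gcost ncost
    by_cases hg : cut G (k + 2) (j + 1) = true
    · rw [if_pos hg]
      simp only [hg, Bool.toNat_true, Bool.true_and, decide_eq_true_eq, Nat.add_sub_cancel,
        Nat.succ_ne_zero, if_false]
      have e1 : (if sym G k (j + 1) = 2 then 0 else 1) = (if sym G k (j + 1) ≠ 2 then 1 else 0) := by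
        by_cases h : sym G k (j + 1) = 2 <;> simp [h]
      have e2 : (if sym G k (j + 1) = 0 then 1 else 0) = (cut G (k + 1) (j + 1)).toNat := by
        by_cases h : cut G (k + 1) (j + 1) = true
        · rw [if_pos (hz.mpr h), h]; rfl
        · rw [if_neg (fun h' => h (hz.mp h'))]
          have : cut G (k + 1) (j + 1) = false := by simpa using h
          rw [this]; rfl
      have e3 : (if pend (sym G k) (cut G (k + 2)) j = 0 then 1 else 0) =
          (cut G (k + 2) j).toNat := by
        by_cases h : cut G (k + 2) j = true
        · rw [if_pos (hp0.mpr h), h]; rfl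
        · rw [if_neg (fun h' => h (hp0.mp h'))]
          have : cut G (k + 2) j = false := by simpa using h
          rw [this]; rfl
      have e4 : (if pend (sym G k) (cut G (k + 2)) j = 2 then 0 else 1) =
          (if (cut G (k + 2) j || (decide (j ≠ 0) && cut G (k + 2) (j - 1)) ||
            cut G (k + 1) j) = true then 1 else 0) := by
        by_cases h : pend (sym G k) (cut G (k + 2)) j = 2
        · rw [if_pos h, if_neg (hp2.mp h)]
        · rw [if_neg h]
          have := fun h' => h (hp2.mpr h')
          rw [if_pos (not_not.mp this)]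
      rw [e1, e2, e3, e4]
      omega
    · have hg' : cut G (k + 2) (j + 1) = false := by simpa using hg
      rw [if_neg hg]
      simp only [hg', Bool.toNat_false, Bool.false_and, Nat.add_sub_cancel,
        Nat.succ_ne_zero, if_false, Nat.add_zero, Nat.zero_add]
      have e2 : (if sym G k (j + 1) = 0 then 1 else 0) = (cut G (k + 1) (j + 1)).toNat := by
        by_cases h : cut G (k + 1) (j + 1) = true
        · rw [if_pos (hz.mpr h), h]; rfl
        · rw [if_neg (fun h' => h (hz.mp h'))]
          have : cut G (k + 1) (j + 1) = false := by simpa using h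
          rw [this]; rfl
      have e3 : (if pend (sym G k) (cut G (k + 2)) j = 0 then 1 else 0) =
          (cut G (k + 2) j).toNat := by
        by_cases h : cut G (k + 2) j = true
        · rw [if_pos (hp0.mpr h), h]; rfl
        · rw [if_neg (fun h' => h (hp0.mp h'))]
          have : cut G (k + 2) j = false := by simpa using h
          rw [this]; rfl
      rw [e2, e3]
      simp
      omega
  rw [Finset.sum_range_succ']
  rw [h0, Finset.sum_congr rfl (fun j _ => hsucc j)]
  simp only [hO]
  rw [Finset.sum_add_distrib, Finset.sum_add_distrib, Finset.sum_add_distrib,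
    Finset.sum_add_distrib]
  rw [Finset.sum_range_succ' own 9, Finset.sum_range_succ upc 9,
    Finset.sum_range_succ' (costQ G k) 9, hup9]
  omega

lemma sym_step (G : Nat → Nat → Bool) (k j : Nat) :
    sym G (k + 1) j = newd (sym G k) (cut G (k + 2)) j := by
  have hz' := sym_eq_zero G k j
  unfold newd gprev
  conv_lhs => unfold sym
  cases j with
  | zero =>
    rw [pend_zero]
    unfold npend
    by_cases hg : cut G (k + 2) 0 = true
    · simp [hg]
    · by_cases h1 : cut G (k + 1) 0 = true
      · simp [hz'.mpr h1, h1, hg]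
      · have h2 : sym G k 0 ≠ 0 := fun h => h1 (hz'.mp h)
        by_cases h3 : cut G (k + 2) 1 = true <;> simp [h2, h1, hg, h3]
  | succ j =>
    rw [pend_succ]
    unfold npend
    by_cases hg : cut G (k + 2) (j + 1) = true
    · simp [hg]
    · by_cases h1 : cut G (k + 1) (j + 1) = true
      · simp [hz'.mpr h1, h1, hg]
      · have h2 : sym G k (j + 1) ≠ 0 := fun h => h1 (hz'.mp h)
        by_cases h3 : cut G (k + 2) j = true <;>
          by_cases h4 : cut G (k + 2) (j + 1 + 1) = true <;> simp [h2, h1, hg, h3, h4]

lemma path (G : Nat → Nat → Bool) :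
    ∀ m, (∀ k < m, ∀ i < 10, 1 ≤ deg G k i) →
      ∃ u ≤ 8, (levels.getD u 0).testBit (wi (sym G m) 10) = true ∧
        u + m ≤ 8 + ∑ k ∈ Finset.range m,
          ∑ j ∈ Finset.range 10, cst (sym G k) (cut G (k + 2)) j := by
  intro m
  induction m with
  | zero =>
    intro _
    refine ⟨8, le_refl _, ?_, by simp⟩
    have hx := wi_lt (sym G 0) (sym_lt G 0) 10
    have : levels.getD 8 0 = 2 ^ 3 ^ 10 - 1 := rfl
    rw [this, Nat.testBit_two_pow_sub_one]
    simpa using hx
  | succ m ih =>
    intro hdom
    obtain ⟨u, hu, hpot, hle⟩ := ih (fun k hk => hdom k (by omega))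
    have hcon : ∀ i < 9, cut G (m + 2) i = false → sym G m i ≠ 2 := by
      intro i hi hg h2
      have h1 := hdom m (by omega) i (by omega)
      unfold deg at h1
      unfold sym cut at h2
      unfold cut at hg
      have hi1 : i < 10 := by omega
      have hi2 : i + 1 < 10 := by omega
      have hi3 : i - 1 < 10 := by omega
      simp only [hi1, hi2, hi3, decide_true, Bool.true_and] at h2 hg
      by_cases hi0 : i = 0
      · subst hi0
        revert h1 h2 hg
        cases G (m + 1) 0 <;> cases G (m + 1) (0 + 1) <;> cases G m 0 <;>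
          cases G (m + 2) 0 <;> simp
      · revert h1 h2 hg
        simp only [hi0, if_false]
        cases G (m + 1) i <;> cases G (m + 1) (i + 1) <;> cases G (m + 1) (i - 1) <;>
          cases G m i <;> cases G (m + 2) i <;> simp [hi0]
    obtain ⟨u', hu', hpot', hle'⟩ := step_lemma (sym G m) (sym G (m + 1)) (cut G (m + 2))
      (sym_lt G m) hcon (by simp [cut]) (fun j _ => sym_step G m j) (sym_lt G (m + 1)) u hu hpot
    refine ⟨u', hu', hpot', ?_⟩
    rw [Finset.sum_range_succ]
    omega

/-- The loss along a strip of height ten next to the border is at least one per column, up to a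
constant. -/
theorem strip (G : Nat → Nat → Bool) (m : Nat) (hdom : ∀ k < m, ∀ i < 10, 1 ≤ deg G k i) :
    m ≤ ∑ k ∈ Finset.range m, (∑ i ∈ Finset.range 10, (deg G k i - 1) + (G (k + 1) 0).toNat)
      + 9 := by
  rcases Nat.eq_zero_or_pos m with rfl | hm
  · simp
  obtain ⟨m, rfl⟩ : ∃ m', m = m' + 1 := ⟨m - 1, by omega⟩
  obtain ⟨u, hu, -, hle⟩ := path G m (fun k hk => hdom k (by omega))
  have h1 : ∑ k ∈ Finset.range m, ∑ j ∈ Finset.range 10, cst (sym G k) (cut G (k + 2)) j ≤
      ∑ k ∈ Finset.range (m + 1),
        (∑ i ∈ Finset.range 10, (costO G k i + costQ G k i) + (G (k + 1) 0).toNat) := by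
    have e1 : ∀ k, ∑ j ∈ Finset.range 10, cst (sym G k) (cut G (k + 2)) j =
        (∑ j ∈ Finset.range 10, costO G (k + 1) j + (cut G (k + 2) 0).toNat) +
          ∑ j ∈ Finset.range 10, costQ G k j := by
      intro k
      rw [sum_cst, Finset.sum_add_distrib]
      omega
    rw [Finset.sum_congr rfl (fun k _ => e1 k), Finset.sum_add_distrib]
    have e2 : ∑ k ∈ Finset.range (m + 1),
        (∑ i ∈ Finset.range 10, (costO G k i + costQ G k i) + (G (k + 1) 0).toNat) =
        ∑ k ∈ Finset.range (m + 1), (∑ j ∈ Finset.range 10, costO G k j + (G (k + 1) 0).toNat) +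
        ∑ k ∈ Finset.range (m + 1), ∑ j ∈ Finset.range 10, costQ G k j := by
      rw [← Finset.sum_add_distrib]
      apply Finset.sum_congr rfl
      intro k _
      rw [Finset.sum_add_distrib]
      omega
    rw [e2]
    apply Nat.add_le_add
    · rw [Finset.sum_range_succ']
      refine le_trans ?_ (Nat.le_add_right _ _)
      apply Finset.sum_le_sum
      intro k _
      have : (cut G (k + 2) 0).toNat = (G (k + 1 + 1) 0).toNat := by simp [cut]
      rw [this]
    · apply Finset.sum_le_sum_of_subset
      intro x hx
      rw [Finset.mem_range] at hx ⊢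
      omega
  have h2 : ∑ k ∈ Finset.range (m + 1),
        (∑ i ∈ Finset.range 10, (costO G k i + costQ G k i) + (G (k + 1) 0).toNat) ≤
      ∑ k ∈ Finset.range (m + 1),
        (∑ i ∈ Finset.range 10, (deg G k i - 1) + (G (k + 1) 0).toNat) := by
    apply Finset.sum_le_sum
    intro k hk
    apply Nat.add_le_add_right
    apply Finset.sum_le_sum
    intro i hi
    exact cost_le_deg G k i (hdom k (Finset.mem_range.mp hk) i (Finset.mem_range.mp hi))
  omega

end Pool.Agent.EternalGrid
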