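import Mathlib
import Pool.Agent.EternalGrid.Strip

open Finset

namespace Pool.Agent.EternalGrid

/-- closed-neighbourhood degree with respect to a 0/1 function `c` on the plane, at `(x, y)` -/
def dg (c : Nat → Nat → Bool) (x y : Nat) : Nat :=
  (c x y).toNat + (c (x + 1) y).toNat + (c (x - 1) y).toNat + (c x (y + 1)).toNat +
    (c x (y - 1)).toNat

lemma sum_shift_up (f : Nat → Nat) (n : Nat) (hn : f (n + 1) = 0) :
    ∑ a ∈ range n, f (a + 2) + f 1 = ∑ a ∈ range n, f (a + 1) := by
  have h1 := Finset.sum_range_succ' (fun a => f (a + 1)) n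
  have h2 := Finset.sum_range_succ (fun a => f (a + 1)) n
  rw [h1, hn] at h2
  simpa using h2

lemma sum_shift_down (f : Nat → Nat) (n : Nat) (h0 : f 0 = 0) :
    ∑ a ∈ range n, f a + f n = ∑ a ∈ range n, f (a + 1) := by
  have h1 := Finset.sum_range_succ' f n
  have h2 := Finset.sum_range_succ f n
  rw [h1, h0] at h2
  simpa using h2.symm

/-- total degree count -/
lemma total_dg (c : Nat → Nat → Bool) (n : Nat) (hx0 : ∀ y, c 0 y = false)
    (hxn : ∀ y, c (n + 1) y = false) (hy0 : ∀ x, c x 0 = false)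
    (hyn : ∀ x, c x (n + 1) = false) :
    ∑ a ∈ range n, ∑ b ∈ range n, dg c (a + 1) (b + 1) +
      (∑ a ∈ range n, (c (a + 1) 1).toNat + ∑ a ∈ range n, (c (a + 1) n).toNat +
       ∑ b ∈ range n, (c 1 (b + 1)).toNat + ∑ b ∈ range n, (c n (b + 1)).toNat) =
      5 * ∑ a ∈ range n, ∑ b ∈ range n, (c (a + 1) (b + 1)).toNat := by
  have e1 : ∑ a ∈ range n, ∑ b ∈ range n, (c (a + 2) (b + 1)).toNat +
      ∑ b ∈ range n, (c 1 (b + 1)).toNat = ∑ a ∈ range n, ∑ b ∈ range n, (c (a + 1) (b + 1)).toNat := by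
    have := sum_shift_up (fun a => ∑ b ∈ range n, (c a (b + 1)).toNat) n (by simp [hxn])
    simpa using this
  have e2 : ∑ a ∈ range n, ∑ b ∈ range n, (c a (b + 1)).toNat +
      ∑ b ∈ range n, (c n (b + 1)).toNat = ∑ a ∈ range n, ∑ b ∈ range n, (c (a + 1) (b + 1)).toNat := by
    have := sum_shift_down (fun a => ∑ b ∈ range n, (c a (b + 1)).toNat) n (by simp [hx0])
    simpa using this
  have e3 : ∑ a ∈ range n, ∑ b ∈ range n, (c (a + 1) (b + 2)).toNat +
      ∑ a ∈ range n, (c (a + 1) 1).toNat = ∑ a ∈ range n, ∑ b ∈ range n, (c (a + 1) (b + 1)).toNat := by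
    rw [← Finset.sum_add_distrib]
    apply Finset.sum_congr rfl
    intro a _
    exact sum_shift_up (fun b => (c (a + 1) b).toNat) n (by simp [hyn])
  have e4 : ∑ a ∈ range n, ∑ b ∈ range n, (c (a + 1) b).toNat +
      ∑ a ∈ range n, (c (a + 1) n).toNat = ∑ a ∈ range n, ∑ b ∈ range n, (c (a + 1) (b + 1)).toNat := by
    rw [← Finset.sum_add_distrib]
    apply Finset.sum_congr rfl
    intro a _
    exact sum_shift_down (fun b => (c (a + 1) b).toNat) n (by simp [hy0])
  have e5 : ∑ a ∈ range n, ∑ b ∈ range n, dg c (a + 1) (b + 1) =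
      ∑ a ∈ range n, ∑ b ∈ range n, (c (a + 1) (b + 1)).toNat +
      ∑ a ∈ range n, ∑ b ∈ range n, (c (a + 2) (b + 1)).toNat +
      ∑ a ∈ range n, ∑ b ∈ range n, (c a (b + 1)).toNat +
      ∑ a ∈ range n, ∑ b ∈ range n, (c (a + 1) (b + 2)).toNat +
      ∑ a ∈ range n, ∑ b ∈ range n, (c (a + 1) b).toNat := by
    simp only [dg, Nat.add_sub_cancel, Finset.sum_add_distrib, Nat.add_assoc, Nat.reduceAdd]
  omega

/-- Lower bound for 0/1 functions. -/
theorem lower_aux (c : Nat → Nat → Bool) (n : Nat) (hn : 20 ≤ n) (hx0 : ∀ y, c 0 y = false)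
    (hxn : ∀ y, c (n + 1) y = false) (hy0 : ∀ x, c x 0 = false)
    (hyn : ∀ x, c x (n + 1) = false)
    (hdom : ∀ x y, 1 ≤ x → x ≤ n → 1 ≤ y → y ≤ n → 1 ≤ dg c x y) :
    n * n + 4 * n ≤ 5 * ∑ a ∈ range n, ∑ b ∈ range n, (c (a + 1) (b + 1)).toNat + 116 := by
  have htot := total_dg c n hx0 hxn hy0 hyn
  -- excess
  let e : Nat × Nat → Nat := fun p => dg c p.1 p.2 - 1
  have hboard : ∑ a ∈ range n, ∑ b ∈ range n, dg c (a + 1) (b + 1) =
      n * n + ∑ p ∈ Ico 1 (n + 1) ×ˢ Ico 1 (n + 1), e p := by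
    rw [Finset.sum_product, Finset.sum_Ico_eq_sum_range]
    simp only [Finset.sum_Ico_eq_sum_range, Nat.add_sub_cancel]
    have : ∀ a ∈ range n, ∑ b ∈ range n, dg c (a + 1) (b + 1) =
        n + ∑ b ∈ range n, e (1 + a, 1 + b) := by
      intro a ha
      have h1 : ∀ b ∈ range n, dg c (a + 1) (b + 1) = 1 + e (1 + a, 1 + b) := by
        intro b hb
        rw [Finset.mem_range] at ha hb
        have := hdom (a + 1) (b + 1) (by omega) (by omega) (by omega) (by omega)
        simp only [e]
        rw [Nat.add_comm 1 a, Nat.add_comm 1 b]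
        omega
      rw [Finset.sum_congr rfl h1, Finset.sum_add_distrib]
      simp
    rw [Finset.sum_congr rfl this, Finset.sum_add_distrib]
    simp
  obtain ⟨m, rfl⟩ : ∃ m, n = m + 20 := ⟨n - 20, by omega⟩
  -- the four strips
  have hB := strip (fun k i => c (k + 10) (i + 1)) m (by
    intro k hk i hi
    have h1 := hdom (k + 11) (i + 1) (by omega) (by omega) (by omega) (by omega)
    unfold dg at h1
    unfold deg
    simp only [Nat.add_sub_cancel] at h1
    by_cases hi0 : i = 0
    · subst hi0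
      rw [hy0] at h1
      simp only [Nat.add_assoc, Nat.reduceAdd, if_true] at h1 ⊢
      simp only [Bool.toNat_false] at h1
      have e1 : k + 11 - 1 = k + 10 := by omega
      rw [e1] at h1
      omega
    · rw [if_neg hi0]
      have e1 : k + 11 - 1 = k + 10 := by omega
      have e2 : i - 1 + 1 = i := by omega
      rw [e1] at h1
      simp only [e2, Nat.add_assoc, Nat.reduceAdd] at h1 ⊢
      omega)
  have hT := strip (fun k i => c (k + 10) (m + 20 - i)) m (by
    intro k hk i hi
    have h1 := hdom (k + 11) (m + 20 - i) (by omega) (by omega) (by omega) (by omega)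
    unfold dg at h1
    unfold deg
    have e1 : k + 11 - 1 = k + 10 := by omega
    have e3 : m + 20 - i - 1 = m + 20 - (i + 1) := by omega
    rw [e1, e3] at h1
    by_cases hi0 : i = 0
    · subst hi0
      have e2 : m + 20 - 0 + 1 = m + 20 + 1 := by omega
      rw [e2, hyn] at h1
      simp only [Nat.add_assoc, Nat.reduceAdd, if_true] at h1 ⊢
      simp only [Bool.toNat_false] at h1
      omega
    · rw [if_neg hi0]
      have e2 : m + 20 - i + 1 = m + 20 - (i - 1) := by omega
      rw [e2] at h1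
      simp only [Nat.add_assoc, Nat.reduceAdd] at h1 ⊢
      omega)
  have hL := strip (fun k i => c (i + 1) (k + 10)) m (by
    intro k hk i hi
    have h1 := hdom (i + 1) (k + 11) (by omega) (by omega) (by omega) (by omega)
    unfold dg at h1
    unfold deg
    simp only [Nat.add_sub_cancel] at h1
    by_cases hi0 : i = 0
    · subst hi0
      rw [hx0] at h1
      simp only [Nat.add_assoc, Nat.reduceAdd, if_true] at h1 ⊢
      simp only [Bool.toNat_false] at h1
      have e1 : k + 11 - 1 = k + 10 := by omega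
      rw [e1] at h1
      omega
    · rw [if_neg hi0]
      have e1 : k + 11 - 1 = k + 10 := by omega
      have e2 : i - 1 + 1 = i := by omega
      rw [e1] at h1
      simp only [e2, Nat.add_assoc, Nat.reduceAdd] at h1 ⊢
      omega)
  have hR := strip (fun k i => c (m + 20 - i) (k + 10)) m (by
    intro k hk i hi
    have h1 := hdom (m + 20 - i) (k + 11) (by omega) (by omega) (by omega) (by omega)
    unfold dg at h1
    unfold deg
    have e1 : k + 11 - 1 = k + 10 := by omega
    have e3 : m + 20 - i - 1 = m + 20 - (i + 1) := by omega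
    rw [e1, e3] at h1
    by_cases hi0 : i = 0
    · subst hi0
      have e2 : m + 20 - 0 + 1 = m + 20 + 1 := by omega
      rw [e2, hxn] at h1
      simp only [Nat.add_assoc, Nat.reduceAdd, if_true] at h1 ⊢
      simp only [Bool.toNat_false] at h1
      omega
    · rw [if_neg hi0]
      have e2 : m + 20 - i + 1 = m + 20 - (i - 1) := by omega
      rw [e2] at h1
      simp only [Nat.add_assoc, Nat.reduceAdd] at h1 ⊢
      omega)
  rw [Finset.sum_add_distrib] at hB hT hL hR
  -- identify the excess sums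
  let SB := Ico 11 (m + 11) ×ˢ Ico 1 11
  let ST := Ico 11 (m + 11) ×ˢ Ico (m + 11) (m + 21)
  let SL := Ico 1 11 ×ˢ Ico 11 (m + 11)
  let SR := Ico (m + 11) (m + 21) ×ˢ Ico 11 (m + 11)
  have heB : ∑ k ∈ range m, ∑ i ∈ range 10, (deg (fun k i => c (k + 10) (i + 1)) k i - 1) =
      ∑ p ∈ SB, e p := by
    simp only [SB]
    rw [Finset.sum_product, Finset.sum_Ico_eq_sum_range]
    have : m + 11 - 11 = m := by omega
    rw [this]
    apply Finset.sum_congr rfl
    intro k _
    rw [Finset.sum_Ico_eq_sum_range]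
    apply Finset.sum_congr rfl
    intro i _
    simp only [e]
    congr 1
    unfold deg dg
    have e1 : 11 + k - 1 = k + 10 := by omega
    rw [e1, Nat.add_comm 11 k, Nat.add_comm 1 i, Nat.add_sub_cancel]
    by_cases hi0 : i = 0
    · subst hi0
      rw [hy0]
      simp only [Nat.add_assoc, Nat.reduceAdd, if_true, Bool.toNat_false]
      omega
    · have e2 : i - 1 + 1 = i := by omega
      rw [if_neg hi0]
      simp only [e2, Nat.add_assoc, Nat.reduceAdd]
      omega
  have heL : ∑ k ∈ range m, ∑ i ∈ range 10, (deg (fun k i => c (i + 1) (k + 10)) k i - 1) =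
      ∑ p ∈ SL, e p := by
    simp only [SL]
    rw [Finset.sum_product_right, Finset.sum_Ico_eq_sum_range]
    have : m + 11 - 11 = m := by omega
    rw [this]
    apply Finset.sum_congr rfl
    intro k _
    rw [Finset.sum_Ico_eq_sum_range]
    apply Finset.sum_congr rfl
    intro i _
    simp only [e]
    congr 1
    unfold deg dg
    have e1 : 11 + k - 1 = k + 10 := by omega
    rw [e1, Nat.add_comm 11 k, Nat.add_comm 1 i, Nat.add_sub_cancel]
    by_cases hi0 : i = 0
    · subst hi0
      rw [hx0]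
      simp only [Nat.add_assoc, Nat.reduceAdd, if_true, Bool.toNat_false]
      omega
    · have e2 : i - 1 + 1 = i := by omega
      rw [if_neg hi0]
      simp only [e2, Nat.add_assoc, Nat.reduceAdd]
      omega
  have heT : ∑ k ∈ range m, ∑ i ∈ range 10, (deg (fun k i => c (k + 10) (m + 20 - i)) k i - 1) =
      ∑ p ∈ ST, e p := by
    simp only [ST]
    rw [Finset.sum_product, Finset.sum_Ico_eq_sum_range]
    have : m + 11 - 11 = m := by omega
    rw [this]
    apply Finset.sum_congr rfl
    intro k _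
    rw [Finset.sum_Ico_eq_sum_range]
    have e0 : m + 21 - (m + 11) = 10 := by omega
    rw [e0, ← Finset.sum_range_reflect]
    apply Finset.sum_congr rfl
    intro i hi
    rw [Finset.mem_range] at hi
    simp only [e]
    congr 1
    unfold deg dg
    have e1 : 11 + k - 1 = k + 10 := by omega
    have e3 : m + 11 + i = m + 20 - (10 - 1 - i) := by omega
    rw [e1, Nat.add_comm 11 k, e3]
    have hj : 10 - 1 - i < 10 := by omega
    generalize 10 - 1 - i = j at *
    by_cases hi0 : j = 0
    · subst hi0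
      have e2 : m + 20 - 0 + 1 = m + 20 + 1 := by omega
      have e4 : m + 20 - 0 - 1 = m + 20 - (0 + 1) := by omega
      rw [e2, e4, hyn]
      simp only [Nat.add_assoc, Nat.reduceAdd, if_true, Bool.toNat_false]
      omega
    · have e2 : m + 20 - j + 1 = m + 20 - (j - 1) := by omega
      have e4 : m + 20 - j - 1 = m + 20 - (j + 1) := by omega
      rw [if_neg hi0, e2, e4]
      simp only [Nat.add_assoc, Nat.reduceAdd]
      omega
  have heR : ∑ k ∈ range m, ∑ i ∈ range 10, (deg (fun k i => c (m + 20 - i) (k + 10)) k i - 1) =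
      ∑ p ∈ SR, e p := by
    simp only [SR]
    rw [Finset.sum_product_right, Finset.sum_Ico_eq_sum_range]
    have : m + 11 - 11 = m := by omega
    rw [this]
    apply Finset.sum_congr rfl
    intro k _
    rw [Finset.sum_Ico_eq_sum_range]
    have e0 : m + 21 - (m + 11) = 10 := by omega
    rw [e0, ← Finset.sum_range_reflect]
    apply Finset.sum_congr rfl
    intro i hi
    rw [Finset.mem_range] at hi
    simp only [e]
    congr 1
    unfold deg dg
    have e1 : 11 + k - 1 = k + 10 := by omega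
    have e3 : m + 11 + i = m + 20 - (10 - 1 - i) := by omega
    rw [e1, Nat.add_comm 11 k, e3]
    have hj : 10 - 1 - i < 10 := by omega
    generalize 10 - 1 - i = j at *
    by_cases hi0 : j = 0
    · subst hi0
      have e2 : m + 20 - 0 + 1 = m + 20 + 1 := by omega
      have e4 : m + 20 - 0 - 1 = m + 20 - (0 + 1) := by omega
      rw [e2, e4, hxn]
      simp only [Nat.add_assoc, Nat.reduceAdd, if_true, Bool.toNat_false]
      omega
    · have e2 : m + 20 - j + 1 = m + 20 - (j - 1) := by omega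
      have e4 : m + 20 - j - 1 = m + 20 - (j + 1) := by omega
      rw [if_neg hi0, e2, e4]
      simp only [Nat.add_assoc, Nat.reduceAdd]
      omega
  rw [heB] at hB
  rw [heT] at hT
  rw [heL] at hL
  rw [heR] at hR
  -- disjointness
  have memB : ∀ p, p ∈ SB ↔ (11 ≤ p.1 ∧ p.1 < m + 11) ∧ (1 ≤ p.2 ∧ p.2 < 11) := by
    intro p; simp only [SB, Finset.mem_product, Finset.mem_Ico]
  have memT : ∀ p, p ∈ ST ↔ (11 ≤ p.1 ∧ p.1 < m + 11) ∧ (m + 11 ≤ p.2 ∧ p.2 < m + 21) := by
    intro p; simp only [ST, Finset.mem_product, Finset.mem_Ico]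
  have memL : ∀ p, p ∈ SL ↔ (1 ≤ p.1 ∧ p.1 < 11) ∧ (11 ≤ p.2 ∧ p.2 < m + 11) := by
    intro p; simp only [SL, Finset.mem_product, Finset.mem_Ico]
  have memR : ∀ p, p ∈ SR ↔ (m + 11 ≤ p.1 ∧ p.1 < m + 21) ∧ (11 ≤ p.2 ∧ p.2 < m + 11) := by
    intro p; simp only [SR, Finset.mem_product, Finset.mem_Ico]
  have hd1 : Disjoint SB ST := by
    rw [Finset.disjoint_left]; intro p h1 h2
    rw [memB] at h1; rw [memT] at h2; omega
  have hd2 : Disjoint (SB ∪ ST) SL := by
    rw [Finset.disjoint_left]; intro p h1 h2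
    rw [Finset.mem_union, memB, memT] at h1; rw [memL] at h2; omega
  have hd3 : Disjoint (SB ∪ ST ∪ SL) SR := by
    rw [Finset.disjoint_left]; intro p h1 h2
    rw [Finset.mem_union, Finset.mem_union, memB, memT, memL] at h1; rw [memR] at h2; omega
  have hsub : SB ∪ ST ∪ SL ∪ SR ⊆ Ico 1 (m + 20 + 1) ×ˢ Ico 1 (m + 20 + 1) := by
    intro p hp
    rw [Finset.mem_union, Finset.mem_union, Finset.mem_union, memB, memT, memL, memR] at hp
    rw [Finset.mem_product, Finset.mem_Ico, Finset.mem_Ico]
    omega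
  have hsum : ∑ p ∈ SB, e p + ∑ p ∈ ST, e p + ∑ p ∈ SL, e p + ∑ p ∈ SR, e p ≤
      ∑ p ∈ Ico 1 (m + 20 + 1) ×ˢ Ico 1 (m + 20 + 1), e p := by
    rw [← Finset.sum_union hd1, ← Finset.sum_union hd2, ← Finset.sum_union hd3]
    exact Finset.sum_le_sum_of_subset hsub
  -- borders
  have hsubsum : ∀ f : Nat → Nat, ∑ k ∈ range m, f (k + 1 + 10) ≤
      ∑ a ∈ range (m + 20), f (a + 1) := by
    intro f
    have h1 : ∑ k ∈ range m, f (k + 1 + 10) = ∑ a ∈ Ico 10 (m + 10), f (a + 1) := by
      rw [Finset.sum_Ico_eq_sum_range]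
      have : m + 10 - 10 = m := by omega
      rw [this]
      apply Finset.sum_congr rfl
      intro k _
      congr 1
      omega
    rw [h1]
    apply Finset.sum_le_sum_of_subset
    intro x hx
    rw [Finset.mem_Ico] at hx
    rw [Finset.mem_range]
    omega
  have hbB := hsubsum (fun a => (c a 1).toNat)
  have hbT := hsubsum (fun a => (c a (m + 20)).toNat)
  have hbL := hsubsum (fun a => (c 1 a).toNat)
  have hbR := hsubsum (fun a => (c (m + 20) a).toNat)
  simp only [Nat.zero_add, Nat.sub_zero] at hB hT hL hR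
  have hsq : (m + 20) * (m + 20) + 4 * (m + 20) = (m + 20) * (m + 20) + 4 * m + 80 := by ring
  rw [hboard] at htot
  omega

end Pool.Agent.EternalGrid
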