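import Pool.Agent.EternalGrid.Pump

/-! From the facts about an edge to an actual movement of the guards. -/

namespace Pool.Agent.EternalGrid

/-- A relation that is (the graph of) a bijection between two finite sets. -/
structure MoveRel {V : Type*} (A B : Finset V) (R : V → V → Prop) : Prop where
  left : ∀ p ∈ A, ∃ q ∈ B, R p q
  right : ∀ q ∈ B, ∃ p ∈ A, R p q
  func : ∀ p q q', R p q → R p q' → q = q'
  inj : ∀ p p' q, R p q → R p' q → p = p'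

lemma MoveRel.symm {V : Type*} {A B : Finset V} {R : V → V → Prop} (h : MoveRel A B R) :
    MoveRel B A (fun p q => R q p) :=
  ⟨h.right, h.left, fun p q q' h1 h2 => h.inj q q' p h1 h2, fun p p' q h1 h2 => h.func q p p' h1 h2⟩

lemma MoveRel.exists_move {V : Type*} [DecidableEq V] {A B : Finset V} {R : V → V → Prop}
    (h : MoveRel A B R) :
    ∃ f : V → V, Set.InjOn f (A : Set V) ∧ A.image f = B ∧ ∀ x ∈ A, R x (f x) := by
  classical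
  have hch : ∀ p, ∃ q, p ∈ A → q ∈ B ∧ R p q := by
    intro p
    by_cases hp : p ∈ A
    · obtain ⟨q, hq, hr⟩ := h.left p hp
      exact ⟨q, fun _ => ⟨hq, hr⟩⟩
    · exact ⟨p, fun h => absurd h hp⟩
  choose f hf using hch
  refine ⟨f, ?_, ?_, fun x hx => (hf x hx).2⟩
  · intro p hp q hq hpq
    have h1 := (hf p hp).2
    have h2 := (hf q hq).2
    rw [← hpq] at h2
    exact h.inj p q (f p) h1 h2
  · ext q
    rw [Finset.mem_image]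
    constructor
    · rintro ⟨p, hp, rfl⟩
      exact (hf p hp).1
    · intro hq
      obtain ⟨p, hp, hr⟩ := h.right q hq
      exact ⟨p, hp, h.func p _ _ (hf p hp).2 hr⟩

/-- The one-step moves on the board, with the masks of an edge. -/
def mv (k n : Nat) (e : Edge) (p q : Fin n × Fin n) : Prop :=
  (bt k e.st p.1 p.2 = true ∧ (q.1 : ℕ) = p.1 ∧ (q.2 : ℕ) = p.2) ∨
  (bt k e.l q.1 q.2 = true ∧ (q.1 : ℕ) + 1 = p.1 ∧ (q.2 : ℕ) = p.2) ∨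
  (bt k e.r p.1 p.2 = true ∧ (q.1 : ℕ) = p.1 + 1 ∧ (q.2 : ℕ) = p.2) ∨
  (bt k e.u p.1 p.2 = true ∧ (q.1 : ℕ) = p.1 ∧ (q.2 : ℕ) = p.2 + 1) ∨
  (bt k e.d q.1 q.2 = true ∧ (q.1 : ℕ) = p.1 ∧ (q.2 : ℕ) + 1 = p.2)

lemma mv_adj {k n : Nat} {e : Edge} {p q : Fin n × Fin n} (h : mv k n e p q) :
    q = p ∨ (SimpleGraph.boxProd (SimpleGraph.pathGraph n)
      (SimpleGraph.pathGraph n)).Adj p q := by
  rw [SimpleGraph.boxProd_adj, SimpleGraph.pathGraph_adj, SimpleGraph.pathGraph_adj]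
  rcases h with ⟨-, h1, h2⟩ | ⟨-, h1, h2⟩ | ⟨-, h1, h2⟩ | ⟨-, h1, h2⟩ | ⟨-, h1, h2⟩
  · left; exact Prod.ext (Fin.ext h1) (Fin.ext h2)
  · right; left; exact ⟨Or.inr h1, (Fin.ext h2).symm⟩
  · right; left; exact ⟨Or.inl h1.symm, (Fin.ext h2).symm⟩
  · right; right; exact ⟨Or.inl h2.symm, (Fin.ext h1).symm⟩
  · right; right; exact ⟨Or.inr h2, (Fin.ext h1).symm⟩

lemma five_disj {S0 S1 S2 S3 S4 : Prop}
    (d : ¬ (S0 ∧ S1) ∧ ¬ ((S0 ∨ S1) ∧ S2) ∧ ¬ ((S0 ∨ S1 ∨ S2) ∧ S3) ∧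
      ¬ ((S0 ∨ S1 ∨ S2 ∨ S3) ∧ S4)) :
    (S0 → S1 → False) ∧ (S0 → S2 → False) ∧ (S0 → S3 → False) ∧ (S0 → S4 → False) ∧
    (S1 → S2 → False) ∧ (S1 → S3 → False) ∧ (S1 → S4 → False) ∧ (S2 → S3 → False) ∧
    (S2 → S4 → False) ∧ (S3 → S4 → False) := by
  obtain ⟨d1, d2, d3, d4⟩ := d
  exact ⟨fun a b => d1 ⟨a, b⟩, fun a b => d2 ⟨Or.inl a, b⟩, fun a b => d3 ⟨Or.inl a, b⟩,
    fun a b => d4 ⟨Or.inl a, b⟩, fun a b => d2 ⟨Or.inr a, b⟩, fun a b => d3 ⟨Or.inr (Or.inl a), b⟩,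
    fun a b => d4 ⟨Or.inr (Or.inl a), b⟩, fun a b => d3 ⟨Or.inr (Or.inr a), b⟩,
    fun a b => d4 ⟨Or.inr (Or.inr (Or.inl a)), b⟩, fun a b => d4 ⟨Or.inr (Or.inr (Or.inr a)), b⟩⟩

lemma edge_moveRel {m k n a b : Nat} {e : Edge} (hn : n = m + 5 * k)
    (H : EdgeFacts m k a b e) : MoveRel (conf k n a) (conf k n b) (mv k n e) := by
  refine ⟨?_, ?_, ?_, ?_⟩
  · intro p hp
    have hx : (p.1 : ℕ) < m + 5 * k := hn ▸ p.1.isLt
    have hy : (p.2 : ℕ) < m + 5 * k := hn ▸ p.2.isLt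
    rw [conf, Finset.mem_filter] at hp
    rcases (H.src _ _ hx hy).1 hp.2 with h | ⟨h1, h⟩ | h | h | ⟨h1, h⟩
    · refine ⟨p, ?_, Or.inl ⟨h, rfl, rfl⟩⟩
      rw [conf, Finset.mem_filter]
      exact ⟨Finset.mem_univ _, (H.tgt _ _ hx hy).2 (Or.inl h)⟩
    · have hx' : (p.1 : ℕ) - 1 < m + 5 * k := by omega
      refine ⟨(⟨(p.1 : ℕ) - 1, by omega⟩, p.2), ?_, Or.inr (Or.inl ⟨h, ?_, rfl⟩)⟩
      · rw [conf, Finset.mem_filter]
        exact ⟨Finset.mem_univ _, (H.tgt _ _ hx' hy).2 (Or.inr (Or.inl h))⟩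
      · show (p.1 : ℕ) - 1 + 1 = p.1
        omega
    · have hx' := H.rr _ _ hx hy h
      refine ⟨(⟨(p.1 : ℕ) + 1, by omega⟩, p.2), ?_, Or.inr (Or.inr (Or.inl ⟨h, rfl, rfl⟩))⟩
      rw [conf, Finset.mem_filter]
      refine ⟨Finset.mem_univ _, (H.tgt _ _ hx' hy).2 (Or.inr (Or.inr (Or.inl ⟨?_, ?_⟩)))⟩
      · show 1 ≤ (p.1 : ℕ) + 1
        omega
      · show bt k e.r ((p.1 : ℕ) + 1 - 1) p.2 = true
        rw [Nat.add_sub_cancel]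
        exact h
    · have hy' := H.ur _ _ hx hy h
      refine ⟨(p.1, ⟨(p.2 : ℕ) + 1, by omega⟩), ?_, Or.inr (Or.inr (Or.inr (Or.inl ⟨h, rfl, rfl⟩)))⟩
      rw [conf, Finset.mem_filter]
      refine ⟨Finset.mem_univ _, (H.tgt _ _ hx hy').2 (Or.inr (Or.inr (Or.inr (Or.inl ⟨?_, ?_⟩))))⟩
      · show 1 ≤ (p.2 : ℕ) + 1
        omega
      · show bt k e.u p.1 ((p.2 : ℕ) + 1 - 1) = true
        rw [Nat.add_sub_cancel]
        exact h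
    · have hy' : (p.2 : ℕ) - 1 < m + 5 * k := by omega
      refine ⟨(p.1, ⟨(p.2 : ℕ) - 1, by omega⟩), ?_,
        Or.inr (Or.inr (Or.inr (Or.inr ⟨h, rfl, ?_⟩)))⟩
      · rw [conf, Finset.mem_filter]
        exact ⟨Finset.mem_univ _, (H.tgt _ _ hx hy').2 (Or.inr (Or.inr (Or.inr (Or.inr h))))⟩
      · show (p.2 : ℕ) - 1 + 1 = p.2
        omega
  · intro q hq
    have hx : (q.1 : ℕ) < m + 5 * k := hn ▸ q.1.isLt
    have hy : (q.2 : ℕ) < m + 5 * k := hn ▸ q.2.isLt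
    rw [conf, Finset.mem_filter] at hq
    rcases (H.tgt _ _ hx hy).1 hq.2 with h | h | ⟨h1, h⟩ | ⟨h1, h⟩ | h
    · refine ⟨q, ?_, Or.inl ⟨h, rfl, rfl⟩⟩
      rw [conf, Finset.mem_filter]
      exact ⟨Finset.mem_univ _, (H.src _ _ hx hy).2 (Or.inl h)⟩
    · have hx' := H.lr _ _ hx hy h
      refine ⟨(⟨(q.1 : ℕ) + 1, by omega⟩, q.2), ?_, Or.inr (Or.inl ⟨h, rfl, rfl⟩)⟩
      rw [conf, Finset.mem_filter]
      refine ⟨Finset.mem_univ _, (H.src _ _ hx' hy).2 (Or.inr (Or.inl ⟨?_, ?_⟩))⟩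
      · show 1 ≤ (q.1 : ℕ) + 1
        omega
      · show bt k e.l ((q.1 : ℕ) + 1 - 1) q.2 = true
        rw [Nat.add_sub_cancel]
        exact h
    · have hx' : (q.1 : ℕ) - 1 < m + 5 * k := by omega
      refine ⟨(⟨(q.1 : ℕ) - 1, by omega⟩, q.2), ?_, Or.inr (Or.inr (Or.inl ⟨h, ?_, rfl⟩))⟩
      · rw [conf, Finset.mem_filter]
        exact ⟨Finset.mem_univ _, (H.src _ _ hx' hy).2 (Or.inr (Or.inr (Or.inl h)))⟩
      · show (q.1 : ℕ) = (q.1 : ℕ) - 1 + 1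
        omega
    · have hy' : (q.2 : ℕ) - 1 < m + 5 * k := by omega
      refine ⟨(q.1, ⟨(q.2 : ℕ) - 1, by omega⟩), ?_,
        Or.inr (Or.inr (Or.inr (Or.inl ⟨h, rfl, ?_⟩)))⟩
      · rw [conf, Finset.mem_filter]
        exact ⟨Finset.mem_univ _, (H.src _ _ hx hy').2 (Or.inr (Or.inr (Or.inr (Or.inl h))))⟩
      · show (q.2 : ℕ) = (q.2 : ℕ) - 1 + 1
        omega
    · have hy' := H.dr _ _ hx hy h
      refine ⟨(q.1, ⟨(q.2 : ℕ) + 1, by omega⟩), ?_,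
        Or.inr (Or.inr (Or.inr (Or.inr ⟨h, rfl, rfl⟩)))⟩
      rw [conf, Finset.mem_filter]
      refine ⟨Finset.mem_univ _, (H.src _ _ hx hy').2 (Or.inr (Or.inr (Or.inr (Or.inr ⟨?_, ?_⟩))))⟩
      · show 1 ≤ (q.2 : ℕ) + 1
        omega
      · show bt k e.d q.1 ((q.2 : ℕ) + 1 - 1) = true
        rw [Nat.add_sub_cancel]
        exact h
  · -- functional
    intro p q q' h h'
    have hx : (p.1 : ℕ) < m + 5 * k := hn ▸ p.1.isLt
    have hy : (p.2 : ℕ) < m + 5 * k := hn ▸ p.2.isLt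
    obtain ⟨d01, d02, d03, d04, d12, d13, d14, d23, d24, d34⟩ := five_disj (H.srcd _ _ hx hy)
    have key : ∀ q : Fin n × Fin n, mv k n e p q →
        (bt k e.st p.1 p.2 = true ∧ (q.1 : ℕ) = p.1 ∧ (q.2 : ℕ) = p.2) ∨
        ((1 ≤ (p.1 : ℕ) ∧ bt k e.l ((p.1 : ℕ) - 1) p.2 = true) ∧ (q.1 : ℕ) + 1 = p.1 ∧
          (q.2 : ℕ) = p.2) ∨
        (bt k e.r p.1 p.2 = true ∧ (q.1 : ℕ) = p.1 + 1 ∧ (q.2 : ℕ) = p.2) ∨
        (bt k e.u p.1 p.2 = true ∧ (q.1 : ℕ) = p.1 ∧ (q.2 : ℕ) = p.2 + 1) ∨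
        ((1 ≤ (p.2 : ℕ) ∧ bt k e.d p.1 ((p.2 : ℕ) - 1) = true) ∧ (q.1 : ℕ) = p.1 ∧
          (q.2 : ℕ) + 1 = p.2) := by
      intro q h
      rcases h with h | ⟨h, h1, h2⟩ | h | h | ⟨h, h1, h2⟩
      · exact Or.inl h
      · refine Or.inr (Or.inl ⟨⟨by omega, ?_⟩, h1, h2⟩)
        rw [← h1, ← h2, Nat.add_sub_cancel]; exact h
      · exact Or.inr (Or.inr (Or.inl h))
      · exact Or.inr (Or.inr (Or.inr (Or.inl h)))
      · refine Or.inr (Or.inr (Or.inr (Or.inr ⟨⟨by omega, ?_⟩, h1, h2⟩)))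
        rw [← h1, ← h2, Nat.add_sub_cancel]; exact h
    have fin : ∀ {q q' : Fin n × Fin n}, (q.1 : ℕ) = q'.1 → (q.2 : ℕ) = q'.2 → q = q' :=
      fun h1 h2 => Prod.ext (Fin.ext h1) (Fin.ext h2)
    rcases key q h with ⟨a, h1, h2⟩ | ⟨a, h1, h2⟩ | ⟨a, h1, h2⟩ | ⟨a, h1, h2⟩ | ⟨a, h1, h2⟩ <;>
    rcases key q' h' with ⟨b, h3, h4⟩ | ⟨b, h3, h4⟩ | ⟨b, h3, h4⟩ | ⟨b, h3, h4⟩ | ⟨b, h3, h4⟩ <;>
    first
      | exact (d01 a b).elim | exact (d02 a b).elim | exact (d03 a b).elim | exact (d04 a b).elim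
      | exact (d12 a b).elim | exact (d13 a b).elim | exact (d14 a b).elim | exact (d23 a b).elim
      | exact (d24 a b).elim | exact (d34 a b).elim
      | exact (d01 b a).elim | exact (d02 b a).elim | exact (d03 b a).elim | exact (d04 b a).elim
      | exact (d12 b a).elim | exact (d13 b a).elim | exact (d14 b a).elim | exact (d23 b a).elim
      | exact (d24 b a).elim | exact (d34 b a).elim
      | exact fin (by omega) (by omega)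
  · -- injective
    intro p p' q h h'
    have hx : (q.1 : ℕ) < m + 5 * k := hn ▸ q.1.isLt
    have hy : (q.2 : ℕ) < m + 5 * k := hn ▸ q.2.isLt
    obtain ⟨d01, d02, d03, d04, d12, d13, d14, d23, d24, d34⟩ := five_disj (H.tgtd _ _ hx hy)
    have key : ∀ p : Fin n × Fin n, mv k n e p q →
        (bt k e.st q.1 q.2 = true ∧ (q.1 : ℕ) = p.1 ∧ (q.2 : ℕ) = p.2) ∨
        (bt k e.l q.1 q.2 = true ∧ (q.1 : ℕ) + 1 = p.1 ∧ (q.2 : ℕ) = p.2) ∨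
        ((1 ≤ (q.1 : ℕ) ∧ bt k e.r ((q.1 : ℕ) - 1) q.2 = true) ∧ (q.1 : ℕ) = p.1 + 1 ∧
          (q.2 : ℕ) = p.2) ∨
        ((1 ≤ (q.2 : ℕ) ∧ bt k e.u q.1 ((q.2 : ℕ) - 1) = true) ∧ (q.1 : ℕ) = p.1 ∧
          (q.2 : ℕ) = p.2 + 1) ∨
        (bt k e.d q.1 q.2 = true ∧ (q.1 : ℕ) = p.1 ∧ (q.2 : ℕ) + 1 = p.2) := by
      intro p h
      rcases h with ⟨h, h1, h2⟩ | h | ⟨h, h1, h2⟩ | ⟨h, h1, h2⟩ | h
      · refine Or.inl ⟨?_, h1, h2⟩
        rw [h1, h2]; exact h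
      · exact Or.inr (Or.inl h)
      · refine Or.inr (Or.inr (Or.inl ⟨⟨by omega, ?_⟩, h1, h2⟩))
        rw [h1, h2, Nat.add_sub_cancel]; exact h
      · refine Or.inr (Or.inr (Or.inr (Or.inl ⟨⟨by omega, ?_⟩, h1, h2⟩)))
        rw [h1, h2, Nat.add_sub_cancel]; exact h
      · exact Or.inr (Or.inr (Or.inr (Or.inr h)))
    have fin : ∀ {q q' : Fin n × Fin n}, (q.1 : ℕ) = q'.1 → (q.2 : ℕ) = q'.2 → q = q' :=
      fun h1 h2 => Prod.ext (Fin.ext h1) (Fin.ext h2)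
    rcases key p h with ⟨a, h1, h2⟩ | ⟨a, h1, h2⟩ | ⟨a, h1, h2⟩ | ⟨a, h1, h2⟩ | ⟨a, h1, h2⟩ <;>
    rcases key p' h' with ⟨b, h3, h4⟩ | ⟨b, h3, h4⟩ | ⟨b, h3, h4⟩ | ⟨b, h3, h4⟩ | ⟨b, h3, h4⟩ <;>
    first
      | exact (d01 a b).elim | exact (d02 a b).elim | exact (d03 a b).elim | exact (d04 a b).elim
      | exact (d12 a b).elim | exact (d13 a b).elim | exact (d14 a b).elim | exact (d23 a b).elim
      | exact (d24 a b).elim | exact (d34 a b).elim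
      | exact (d01 b a).elim | exact (d02 b a).elim | exact (d03 b a).elim | exact (d04 b a).elim
      | exact (d12 b a).elim | exact (d13 b a).elim | exact (d14 b a).elim | exact (d23 b a).elim
      | exact (d24 b a).elim | exact (d34 b a).elim
      | exact fin (by omega) (by omega)

end Pool.Agent.EternalGrid
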