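import Mathlib

/-! Pumping a finite strategy on a small board (with a 5-periodic middle) to all larger boards. -/

namespace Pool.Agent.EternalGrid

/-- An edge of the strategy graph: states `s`, `t` and the masks of the moves
(`st`: stays, `l`: targets of moves to the left, `r`: sources of moves to the right,
`u`: sources of moves up, `d`: targets of moves down). -/
structure Edge where
  s : Nat
  t : Nat
  st : Nat
  l : Nat
  r : Nat
  u : Nat
  d : Nat

/-- bits `32 * y`, `y < 32` -/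
def colmask : Nat := (2 ^ 1024 - 1) / (2 ^ 32 - 1)

/-- rows `0, …, j-1` of width `m` -/
def bm (m : Nat) : Nat → Nat
  | 0 => 0
  | j + 1 => bm m j ||| ((2 ^ m - 1) <<< (32 * j))

/-- The checks on one edge. -/
def okEdge (m : Nat) (cfg : List Nat) (e : Edge) : Bool :=
  (cfg.getD e.s 0 == e.st ||| (e.l <<< 1) ||| e.r ||| e.u ||| (e.d <<< 32)) &&
  (cfg.getD e.t 0 == e.st ||| e.l ||| (e.r <<< 1) ||| (e.u <<< 32) ||| e.d) &&
  (e.st &&& (e.l <<< 1) == 0) && ((e.st ||| (e.l <<< 1)) &&& e.r == 0) &&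
  ((e.st ||| (e.l <<< 1) ||| e.r) &&& e.u == 0) &&
  ((e.st ||| (e.l <<< 1) ||| e.r ||| e.u) &&& (e.d <<< 32) == 0) &&
  (e.st &&& e.l == 0) && ((e.st ||| e.l) &&& (e.r <<< 1) == 0) &&
  ((e.st ||| e.l ||| (e.r <<< 1)) &&& (e.u <<< 32) == 0) &&
  ((e.st ||| e.l ||| (e.r <<< 1) ||| (e.u <<< 32)) &&& e.d == 0) &&
  (((e.l >>> 7) ^^^ (e.l >>> 12)) &&& colmask == 0) &&
  (((e.r >>> 7) ^^^ (e.r >>> 12)) &&& colmask == 0) &&
  ((e.u >>> 224) % 2 ^ 32 == (e.u >>> 384) % 2 ^ 32) &&
  ((e.d >>> 224) % 2 ^ 32 == (e.d >>> 384) % 2 ^ 32) &&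
  (cfg.getD e.s 0 ||| bm m m == bm m m) && (cfg.getD e.t 0 ||| bm m m == bm m m) &&
  (e.l ||| bm m m == bm m m) && (e.r ||| bm m m == bm m m) &&
  decide (e.s < cfg.length) && decide (e.t < cfg.length)

/-- union of the configurations reachable from state `i` in one step -/
def cover (cfg : List Nat) (E : List Edge) (i : Nat) : Nat :=
  E.foldl (fun acc e => acc ||| ((if e.s = i then cfg.getD e.t 0 else 0) |||
    (if e.t = i then cfg.getD e.s 0 else 0))) (cfg.getD i 0)

def okAll (m : Nat) (cfg : List Nat) (E : List Edge) : Bool :=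
  E.all (okEdge m cfg) &&
  (List.range cfg.length).all (fun i => bm m m ||| cover cfg E i == cover cfg E i)

lemma testBit_bm (m : Nat) (hm : m ≤ 32) (x y : Nat) (hx : x < 32) :
    ∀ j, (bm m j).testBit (x + 32 * y) = true ↔ (x < m ∧ y < j) := by
  intro j
  induction j with
  | zero => simp [bm]
  | succ j ih =>
    unfold bm
    rw [Nat.testBit_or, Bool.or_eq_true, ih, Nat.testBit_shiftLeft, Nat.testBit_two_pow_sub_one]
    simp only [Bool.and_eq_true, decide_eq_true_eq]
    omega

lemma testBit_colmask (y : Nat) (hy : y < 32) : colmask.testBit (32 * y) = true := by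
  revert y
  decide +kernel

lemma testBit_of_or_eq {a b : Nat} (h : a ||| b = b) (x : Nat) (hx : a.testBit x = true) :
    b.testBit x = true := by
  rw [← h, Nat.testBit_or, hx]; rfl

lemma disj_testBit {a b : Nat} (h : a &&& b = 0) (x : Nat) :
    ¬ (a.testBit x = true ∧ b.testBit x = true) := by
  rintro ⟨h1, h2⟩
  have : (a &&& b).testBit x = true := by rw [Nat.testBit_and, h1, h2]; rfl
  rw [h] at this
  simp at this

lemma foldl_cover {α : Type*} (f : α → Nat) (x : Nat) :
    ∀ (R : List α) (a : Nat), (R.foldl (fun acc r => acc ||| f r) a).testBit x = true →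
      (a.testBit x = true ∨ ∃ r ∈ R, (f r).testBit x = true) := by
  intro R
  induction R with
  | nil => intro a h; left; simpa using h
  | cons r R ih =>
    intro a h
    rw [List.foldl_cons] at h
    rcases ih _ h with h | ⟨r', hr', h⟩
    · rw [Nat.testBit_or, Bool.or_eq_true] at h
      rcases h with h | h
      · left; exact h
      · right; exact ⟨r, List.mem_cons_self, h⟩
    · right; exact ⟨r', List.mem_cons_of_mem _ hr', h⟩

/-- The map from the large board to the small one: the middle is folded modulo 5. -/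
def pp (k x : Nat) : Nat :=
  if x < 8 then x else if x < 8 + 5 * (k + 1) then 8 + (x - 8) % 5 else x - 5 * k

lemma pp_succ (k x : Nat) : pp k (x + 1) = pp k x + 1 ∨ (pp k x = 12 ∧ pp k (x + 1) = 8) := by
  unfold pp
  split_ifs <;> omega

lemma pp_zero (k : Nat) : pp k 0 = 0 := by simp [pp]

lemma pp_lt (m k x : Nat) (hm : 13 ≤ m) (hx : x < m + 5 * k) : pp k x < m := by
  unfold pp
  split_ifs <;> omega

lemma pp_last (m k : Nat) (hm : 13 ≤ m) (x : Nat) (hx : x + 1 = m + 5 * k) : pp k x + 1 = m := by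
  unfold pp
  split_ifs <;> omega

/-- bit of the mask `M` at the folded position -/
def bt (k M x y : Nat) : Bool := M.testBit (pp k x + 32 * pp k y)

/-- pumped configuration -/
def conf (k n M : Nat) : Finset (Fin n × Fin n) :=
  Finset.univ.filter (fun p => bt k M p.1 p.2 = true)

/-- The facts about an edge that are used on the large board. -/
structure EdgeFacts (m k a b : Nat) (e : Edge) : Prop where
  src : ∀ x y, x < m + 5 * k → y < m + 5 * k → (bt k a x y = true ↔
    (bt k e.st x y = true ∨ (1 ≤ x ∧ bt k e.l (x - 1) y = true) ∨ bt k e.r x y = true ∨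
      bt k e.u x y = true ∨ (1 ≤ y ∧ bt k e.d x (y - 1) = true)))
  tgt : ∀ x y, x < m + 5 * k → y < m + 5 * k → (bt k b x y = true ↔
    (bt k e.st x y = true ∨ bt k e.l x y = true ∨ (1 ≤ x ∧ bt k e.r (x - 1) y = true) ∨
      (1 ≤ y ∧ bt k e.u x (y - 1) = true) ∨ bt k e.d x y = true))
  srcd : ∀ x y, x < m + 5 * k → y < m + 5 * k →
    ¬ (bt k e.st x y = true ∧ (1 ≤ x ∧ bt k e.l (x - 1) y = true)) ∧
    ¬ ((bt k e.st x y = true ∨ (1 ≤ x ∧ bt k e.l (x - 1) y = true)) ∧ bt k e.r x y = true) ∧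
    ¬ ((bt k e.st x y = true ∨ (1 ≤ x ∧ bt k e.l (x - 1) y = true) ∨ bt k e.r x y = true) ∧
      bt k e.u x y = true) ∧
    ¬ ((bt k e.st x y = true ∨ (1 ≤ x ∧ bt k e.l (x - 1) y = true) ∨ bt k e.r x y = true ∨
      bt k e.u x y = true) ∧ (1 ≤ y ∧ bt k e.d x (y - 1) = true))
  tgtd : ∀ x y, x < m + 5 * k → y < m + 5 * k →
    ¬ (bt k e.st x y = true ∧ bt k e.l x y = true) ∧
    ¬ ((bt k e.st x y = true ∨ bt k e.l x y = true) ∧ (1 ≤ x ∧ bt k e.r (x - 1) y = true)) ∧
    ¬ ((bt k e.st x y = true ∨ bt k e.l x y = true ∨ (1 ≤ x ∧ bt k e.r (x - 1) y = true)) ∧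
      (1 ≤ y ∧ bt k e.u x (y - 1) = true)) ∧
    ¬ ((bt k e.st x y = true ∨ bt k e.l x y = true ∨ (1 ≤ x ∧ bt k e.r (x - 1) y = true) ∨
      (1 ≤ y ∧ bt k e.u x (y - 1) = true)) ∧ bt k e.d x y = true)
  lr : ∀ x y, x < m + 5 * k → y < m + 5 * k → bt k e.l x y = true → x + 1 < m + 5 * k
  rr : ∀ x y, x < m + 5 * k → y < m + 5 * k → bt k e.r x y = true → x + 1 < m + 5 * k
  ur : ∀ x y, x < m + 5 * k → y < m + 5 * k → bt k e.u x y = true → y + 1 < m + 5 * k
  dr : ∀ x y, x < m + 5 * k → y < m + 5 * k → bt k e.d x y = true → y + 1 < m + 5 * k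

lemma col_periodic {M : Nat} (h : ((M >>> 7) ^^^ (M >>> 12)) &&& colmask = 0) (Y : Nat)
    (hY : Y < 32) : M.testBit (7 + 32 * Y) = M.testBit (12 + 32 * Y) := by
  have h1 := disj_testBit h (32 * Y)
  rw [testBit_colmask Y hY, Nat.testBit_xor, Nat.testBit_shiftRight, Nat.testBit_shiftRight] at h1
  simpa using h1

lemma row_periodic {M : Nat} (h : (M >>> 224) % 2 ^ 32 = (M >>> 384) % 2 ^ 32) (X : Nat)
    (hX : X < 32) : M.testBit (X + 32 * 7) = M.testBit (X + 32 * 12) := by
  have h1 : ((M >>> 224) % 2 ^ 32).testBit X = ((M >>> 384) % 2 ^ 32).testBit X := by rw [h]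
  rw [Nat.testBit_mod_two_pow, Nat.testBit_mod_two_pow, Nat.testBit_shiftRight,
    Nat.testBit_shiftRight] at h1
  simp only [hX, decide_true, Bool.true_and] at h1
  rw [Nat.add_comm X (32 * 7), Nat.add_comm X (32 * 12)]
  exact h1

lemma bt_shift_x {m k M : Nat} (hm : 13 ≤ m) (hm' : m ≤ 31)
    (hper : ((M >>> 7) ^^^ (M >>> 12)) &&& colmask = 0) (hb : M ||| bm m m = bm m m) (x y : Nat)
    (hy : y < m + 5 * k) :
    (M <<< 1).testBit (pp k x + 32 * pp k y) = true ↔ (1 ≤ x ∧ bt k M (x - 1) y = true) := by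
  have hY := pp_lt m k y hm hy
  rw [Nat.testBit_shiftLeft]
  unfold bt
  cases x with
  | zero =>
    rw [pp_zero]
    simp only [Nat.zero_add, Bool.and_eq_true, decide_eq_true_eq]
    constructor
    · rintro ⟨h1, h2⟩
      exfalso
      have h3 : 32 * pp k y - 1 = 31 + 32 * (pp k y - 1) := by omega
      rw [h3] at h2
      have h4 := testBit_of_or_eq hb _ h2
      rw [testBit_bm m (by omega) 31 _ (by omega)] at h4
      omega
    · rintro ⟨h1, -⟩; omega
  | succ x =>
    simp only [Nat.add_sub_cancel, Bool.and_eq_true, decide_eq_true_eq]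
    rcases pp_succ k x with h | ⟨h1, h2⟩
    · rw [h]
      have : pp k x + 1 + 32 * pp k y - 1 = pp k x + 32 * pp k y := by omega
      rw [this]
      constructor
      · rintro ⟨_, h⟩; exact ⟨by omega, h⟩
      · rintro ⟨_, h⟩; exact ⟨by omega, h⟩
    · rw [h1, h2]
      have : 8 + 32 * pp k y - 1 = 7 + 32 * pp k y := by omega
      rw [this, col_periodic hper _ (by omega)]
      constructor
      · rintro ⟨_, h⟩; exact ⟨by omega, h⟩
      · rintro ⟨_, h⟩; exact ⟨by omega, h⟩

lemma bt_shift_y {m k M : Nat} (hm : 13 ≤ m) (hm' : m ≤ 31)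
    (hper : (M >>> 224) % 2 ^ 32 = (M >>> 384) % 2 ^ 32) (x y : Nat)
    (hx : x < m + 5 * k) :
    (M <<< 32).testBit (pp k x + 32 * pp k y) = true ↔ (1 ≤ y ∧ bt k M x (y - 1) = true) := by
  have hX := pp_lt m k x hm hx
  rw [Nat.testBit_shiftLeft]
  unfold bt
  cases y with
  | zero =>
    rw [pp_zero]
    simp only [Bool.and_eq_true, decide_eq_true_eq]
    omega
  | succ y =>
    simp only [Nat.add_sub_cancel, Bool.and_eq_true, decide_eq_true_eq]
    rcases pp_succ k y with h | ⟨h1, h2⟩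
    · rw [h]
      have : pp k x + 32 * (pp k y + 1) - 32 = pp k x + 32 * pp k y := by omega
      rw [this]
      constructor
      · rintro ⟨_, h⟩; exact ⟨by omega, h⟩
      · rintro ⟨_, h⟩; exact ⟨by omega, h⟩
    · rw [h1, h2]
      have : pp k x + 32 * 8 - 32 = pp k x + 32 * 7 := by omega
      rw [this, row_periodic hper _ (by omega)]
      constructor
      · rintro ⟨_, h⟩; exact ⟨by omega, h⟩
      · rintro ⟨_, h⟩; exact ⟨by omega, h⟩

lemma edgeFacts_of_ok {m : Nat} {cfg : List Nat} {e : Edge} (hm : 13 ≤ m) (hm' : m ≤ 31)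
    (h : okEdge m cfg e = true) (k : Nat) :
    EdgeFacts m k (cfg.getD e.s 0) (cfg.getD e.t 0) e := by
  unfold okEdge at h
  simp only [Bool.and_eq_true, beq_iff_eq, decide_eq_true_eq] at h
  obtain ⟨⟨⟨⟨⟨⟨⟨⟨⟨⟨⟨⟨⟨⟨⟨⟨⟨⟨⟨h1, h2⟩, h3⟩, h4⟩, h5⟩, h6⟩, h7⟩, h8⟩, h9⟩, h10⟩, h11⟩, h12⟩, h13⟩,
    h14⟩, h15⟩, h16⟩, h17⟩, h18⟩, -⟩, -⟩ := h
  generalize cfg.getD e.s 0 = a at *
  generalize cfg.getD e.t 0 = b at *
  have SL := fun x y hy => bt_shift_x (k := k) hm hm' h11 h17 x y hy
  have SR := fun x y hy => bt_shift_x (k := k) hm hm' h12 h18 x y hy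
  have SU := fun x y hx => bt_shift_y (k := k) hm hm' h13 x y hx
  have SD := fun x y hx => bt_shift_y (k := k) hm hm' h14 x y hx
  refine ⟨?_, ?_, ?_, ?_, ?_, ?_, ?_, ?_⟩
  · intro x y hx hy
    have h0 : bt k a x y = a.testBit (pp k x + 32 * pp k y) := rfl
    rw [h0, h1, Nat.testBit_or, Nat.testBit_or, Nat.testBit_or, Nat.testBit_or, Bool.or_eq_true,
      Bool.or_eq_true, Bool.or_eq_true, Bool.or_eq_true, SL x y hy, SD x y hx, or_assoc, or_assoc,
      or_assoc]
    exact Iff.rfl
  · intro x y hx hy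
    have h0 : bt k b x y = b.testBit (pp k x + 32 * pp k y) := rfl
    rw [h0, h2, Nat.testBit_or, Nat.testBit_or, Nat.testBit_or, Nat.testBit_or, Bool.or_eq_true,
      Bool.or_eq_true, Bool.or_eq_true, Bool.or_eq_true, SR x y hy, SU x y hx, or_assoc, or_assoc,
      or_assoc]
    exact Iff.rfl
  · intro x y hx hy
    have d1 := disj_testBit h3 (pp k x + 32 * pp k y)
    have d2 := disj_testBit h4 (pp k x + 32 * pp k y)
    have d3 := disj_testBit h5 (pp k x + 32 * pp k y)
    have d4 := disj_testBit h6 (pp k x + 32 * pp k y)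
    rw [SL x y hy] at d1
    rw [Nat.testBit_or, Bool.or_eq_true, SL x y hy] at d2
    rw [Nat.testBit_or, Nat.testBit_or, Bool.or_eq_true, Bool.or_eq_true, SL x y hy] at d3
    rw [Nat.testBit_or, Nat.testBit_or, Nat.testBit_or, Bool.or_eq_true, Bool.or_eq_true,
      Bool.or_eq_true, SL x y hy, SD x y hx] at d4
    exact ⟨d1, d2, fun h => d3 ⟨or_assoc.mpr h.1, h.2⟩,
      fun h => d4 ⟨or_assoc.mpr (or_assoc.mpr h.1), h.2⟩⟩
  · intro x y hx hy
    have d1 := disj_testBit h7 (pp k x + 32 * pp k y)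
    have d2 := disj_testBit h8 (pp k x + 32 * pp k y)
    have d3 := disj_testBit h9 (pp k x + 32 * pp k y)
    have d4 := disj_testBit h10 (pp k x + 32 * pp k y)
    rw [Nat.testBit_or, Bool.or_eq_true, SR x y hy] at d2
    rw [Nat.testBit_or, Nat.testBit_or, Bool.or_eq_true, Bool.or_eq_true, SR x y hy,
      SU x y hx] at d3
    rw [Nat.testBit_or, Nat.testBit_or, Nat.testBit_or, Bool.or_eq_true, Bool.or_eq_true,
      Bool.or_eq_true, SR x y hy, SU x y hx] at d4
    exact ⟨d1, d2, fun h => d3 ⟨or_assoc.mpr h.1, h.2⟩,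
      fun h => d4 ⟨or_assoc.mpr (or_assoc.mpr h.1), h.2⟩⟩
  · -- l
    intro x y hx hy hl
    by_contra hlt
    have h20 := pp_last m k hm x (by omega)
    have h21 : (e.l <<< 1).testBit (m + 32 * pp k y) = true := by
      rw [Nat.testBit_shiftLeft]
      have : m + 32 * pp k y - 1 = pp k x + 32 * pp k y := by omega
      rw [this]
      unfold bt at hl
      rw [hl]
      simp
      omega
    have h22 : a.testBit (m + 32 * pp k y) = true := by
      rw [h1]
      simp only [Nat.testBit_or, h21, Bool.or_true, Bool.true_or]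
    have h23 := testBit_of_or_eq h15 _ h22
    rw [testBit_bm m (by omega) m _ (by omega)] at h23
    omega
  · intro x y hx hy hr
    by_contra hlt
    have h20 := pp_last m k hm x (by omega)
    have h21 : (e.r <<< 1).testBit (m + 32 * pp k y) = true := by
      rw [Nat.testBit_shiftLeft]
      have : m + 32 * pp k y - 1 = pp k x + 32 * pp k y := by omega
      rw [this]
      unfold bt at hr
      rw [hr]
      simp
      omega
    have h22 : b.testBit (m + 32 * pp k y) = true := by
      rw [h2]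
      simp only [Nat.testBit_or, h21, Bool.or_true, Bool.true_or]
    have h23 := testBit_of_or_eq h16 _ h22
    rw [testBit_bm m (by omega) m _ (by omega)] at h23
    omega
  · intro x y hx hy hu
    by_contra hlt
    have h20 := pp_last m k hm y (by omega)
    have hX := pp_lt m k x hm hx
    have h21 : (e.u <<< 32).testBit (pp k x + 32 * m) = true := by
      rw [Nat.testBit_shiftLeft]
      have : pp k x + 32 * m - 32 = pp k x + 32 * pp k y := by omega
      rw [this]
      unfold bt at hu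
      rw [hu]
      simp
      omega
    have h22 : b.testBit (pp k x + 32 * m) = true := by
      rw [h2]
      simp only [Nat.testBit_or, h21, Bool.or_true, Bool.true_or]
    have h23 := testBit_of_or_eq h16 _ h22
    rw [testBit_bm m (by omega) (pp k x) _ (by omega)] at h23
    omega
  · intro x y hx hy hd
    by_contra hlt
    have h20 := pp_last m k hm y (by omega)
    have hX := pp_lt m k x hm hx
    have h21 : (e.d <<< 32).testBit (pp k x + 32 * m) = true := by
      rw [Nat.testBit_shiftLeft]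
      have : pp k x + 32 * m - 32 = pp k x + 32 * pp k y := by omega
      rw [this]
      unfold bt at hd
      rw [hd]
      simp
      omega
    have h22 : a.testBit (pp k x + 32 * m) = true := by
      rw [h1]
      simp only [Nat.testBit_or, h21, Bool.or_true]
    have h23 := testBit_of_or_eq h15 _ h22
    rw [testBit_bm m (by omega) (pp k x) _ (by omega)] at h23
    omega

end Pool.Agent.EternalGrid
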